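import Pool.Agent.K9h26.AH.Flag0

set_option autoImplicit false
set_option linter.unusedSectionVars false

/-!
# The filtration which belongs to the output forms of an approximate algorithm
-/

namespace Pool.Agent.K9h26.AH

open Finset Polynomial

variable {F : Type*} [Field F] {ι L : Type*} [Fintype ι] [Fintype L]

theorem card_le_succ (w : L → ι → F[X]) (j : ℕ) :
    Module.finrank F (CC w j) + Module.finrank F (VV w (j + 1)) ≤
      Module.finrank F (CC w (j + 1)) + Module.finrank F (VV w (j + 2)) := by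
  -- a linear section
  let e : Y w (j + 1) →ₗ[F] VV w (j + 1) := ev.submoduleMap (Y w (j + 1))
  have he : Function.Surjective e := ev.submoduleMap_surjective (Y w (j + 1))
  obtain ⟨σ, hσ⟩ := LinearMap.exists_rightInverse_of_surjective e (LinearMap.range_eq_top.2 he)
  have hσ' : ∀ v, ev ((σ v : Y w (j + 1)) : ι → F[X]) = (v : ι → F) := by
    intro v
    have h1 := LinearMap.congr_fun hσ v
    exact congrArg Subtype.val h1
  obtain ⟨ρ, hρ⟩ : ∃ ρ : VV w (j + 1) →ₗ[F] (L → F), ∀ v, ρ v =
      phi w (j + 1) ((σ v : Y w (j + 1)) : ι → F[X]) :=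
    ⟨phi w (j + 1) ∘ₗ (Y w (j + 1)).subtype ∘ₗ σ, fun _ => rfl⟩
  obtain ⟨Θ, hΘ⟩ : ∃ Θ : (CC w j × VV w (j + 1)) →ₗ[F] (L → F), ∀ c v,
      Θ (c, v) = (c : L → F) + ρ v :=
    ⟨LinearMap.coprod (CC w j).subtype ρ, fun c v => by
      rw [LinearMap.coprod_apply, Submodule.subtype_apply]⟩
  have hX : ∀ y ∈ Y w j, (X : F[X]) • y ∈ Y w (j + 1) ∧
      phi w (j + 1) ((X : F[X]) • y) = phi w j y := by
    intro y hy
    constructor
    · intro l
      obtain ⟨P, hP⟩ := hy l
      exact ⟨P, by rw [pr_smul, hP]; ring⟩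
    · funext l
      rw [phi_apply, phi_apply, pr_smul, coeff_X_mul]
  have h1 := LinearMap.finrank_range_add_finrank_ker Θ
  rw [Module.finrank_prod] at h1
  rw [← h1]
  refine Nat.add_le_add (Submodule.finrank_mono ?_) ?_
  · rintro _ ⟨⟨c, v⟩, rfl⟩
    rw [hΘ, hρ]
    refine (CC w (j + 1)).add_mem ?_ ?_
    · obtain ⟨y, hy, hyc⟩ := c.2
      refine ⟨(X : F[X]) • y, (hX y hy).1, ?_⟩
      rw [(hX y hy).2, hyc]
    · exact ⟨_, (σ v).2, rfl⟩
  · -- the kernel
    have hk : ∀ z : CC w j × VV w (j + 1), z ∈ LinearMap.ker Θ → (z.2 : ι → F) ∈ VV w (j + 2) := by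
      rintro ⟨c, v⟩ hz
      rw [LinearMap.mem_ker, hΘ, hρ] at hz
      obtain ⟨y, hy, hyc⟩ := c.2
      have h2 : (X : F[X]) • y + ((σ v : Y w (j + 1)) : ι → F[X]) ∈ Y w (j + 1) :=
        (Y w (j + 1)).add_mem (hX y hy).1 (σ v).2
      have h3 : phi w (j + 1) ((X : F[X]) • y + ((σ v : Y w (j + 1)) : ι → F[X])) = 0 := by
        rw [map_add, (hX y hy).2, hyc, hz]
      refine ⟨_, fun l => dvd_succ (h2 l) (congrFun h3 l), ?_⟩
      rw [map_add, hσ' v]
      have h4 : ev ((X : F[X]) • y) = 0 := by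
        funext x
        rw [ev_apply, Pi.smul_apply, smul_eq_mul, coeff_X_mul_zero]
        rfl
      rw [h4, zero_add]
    obtain ⟨κ, hκ⟩ : ∃ κ : LinearMap.ker Θ →ₗ[F] (ι → F), ∀ z, κ z =
        ((z : CC w j × VV w (j + 1)).2 : ι → F) :=
      ⟨(VV w (j + 1)).subtype ∘ₗ LinearMap.snd F (CC w j) (VV w (j + 1)) ∘ₗ
        (LinearMap.ker Θ).subtype, fun _ => rfl⟩
    have hr : LinearMap.range κ ≤ VV w (j + 2) := by
      rintro _ ⟨z, rfl⟩
      rw [hκ]
      exact hk z.1 z.2
    refine le_trans ?_ (Submodule.finrank_mono hr)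
    refine le_of_eq (LinearMap.finrank_range_of_inj ?_).symm
    rintro ⟨⟨c, v⟩, hz⟩ ⟨⟨c', v'⟩, hz'⟩ h0
    rw [hκ, hκ] at h0
    have hv : v = v' := Subtype.ext h0
    rw [LinearMap.mem_ker, hΘ] at hz hz'
    have hc : c = c' := by
      refine Subtype.ext ?_
      have h5 := hz.trans hz'.symm
      rw [hv] at h5
      exact add_right_cancel h5
    exact Subtype.ext (Prod.ext hc hv)

theorem card_le (w : L → ι → F[X]) (j : ℕ) :
    Fintype.card ι ≤ Module.finrank F (CC w j) + Module.finrank F (VV w (j + 1)) := by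
  induction j with
  | zero => exact card_le_zero w
  | succ j ih => exact ih.trans (card_le_succ w j)

/-- information sets -/
theorem exists_info (W : Submodule F (L → F)) : ∃ (κ : Type) (_ : Fintype κ) (_ : DecidableEq κ)
    (a : κ → L) (c : κ → L → F), Function.Injective a ∧ Fintype.card κ = Module.finrank F W ∧
      (∀ g, c g ∈ W) ∧ ∀ g g', c g (a g') = if g = g' then 1 else 0 := by
  classical
  let f : L → (W →ₗ[F] F) := fun l => LinearMap.proj l ∘ₗ W.subtype
  obtain ⟨κ₀, a₀, ha₀, hspan, hLI⟩ := exists_linearIndependent' F f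
  have : Finite κ₀ := Finite.of_injective a₀ ha₀
  let _ : Fintype κ₀ := Fintype.ofFinite κ₀
  let n := Fintype.card κ₀
  let e : Fin n ≃ κ₀ := (Fintype.equivFin κ₀).symm
  let E : W →ₗ[F] (Fin n → F) := LinearMap.pi fun g => f (a₀ (e g))
  have hE : Function.Injective E := by
    rw [← LinearMap.ker_eq_bot, LinearMap.ker_eq_bot']
    intro x hx
    have h1 : ∀ l, f l x = 0 := by
      intro l
      have h2 : f l ∈ Submodule.span F (Set.range (f ∘ a₀)) := by
        rw [hspan]
        exact Submodule.subset_span ⟨l, rfl⟩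
      have h3 : Submodule.span F (Set.range (f ∘ a₀)) ≤
          LinearMap.ker (LinearMap.applyₗ (R := F) (M₂ := F) x) := by
        rw [Submodule.span_le]
        rintro _ ⟨g, rfl⟩
        rw [SetLike.mem_coe, LinearMap.mem_ker]
        have := congrFun hx (e.symm g)
        simp only [E, LinearMap.pi_apply, Equiv.apply_symm_apply, Pi.zero_apply] at this
        exact this
      exact h3 h2
    exact Subtype.ext (funext h1)
  have hcard : Module.finrank F W = n := by
    refine le_antisymm ?_ ?_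
    · have := LinearMap.finrank_le_finrank_of_injective hE
      rwa [Module.finrank_fintype_fun_eq_card, Fintype.card_fin] at this
    · have h1 := hLI.fintype_card_le_finrank
      have h2 : Module.finrank F (W →ₗ[F] F) = Module.finrank F W := Subspace.dual_finrank_eq
      rw [h2] at h1
      exact h1
  have hsurj : Function.Surjective E := by
    refine (LinearMap.injective_iff_surjective_of_finrank_eq_finrank ?_).1 hE
    rw [Module.finrank_fintype_fun_eq_card, Fintype.card_fin, hcard]
  choose c hc using fun g : Fin n => hsurj (Pi.single g 1)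
  refine ⟨Fin n, inferInstance, inferInstance, fun g => a₀ (e g), fun g => (c g : L → F),
    ha₀.comp e.injective, ?_, fun g => (c g).2, fun g g' => ?_⟩
  · rw [hcard, Fintype.card_fin]
  · have := congrFun (hc g) g'
    simp only [E, LinearMap.pi_apply] at this
    rw [Pi.single_apply] at this
    rw [show (if g = g' then (1 : F) else 0) = if g' = g then 1 else 0 from
      if_congr eq_comm rfl rfl, ← this]
    rfl

/-- dual elements modulo `X ^ (h + 1)` -/
theorem exists_dual (w : L → ι → F[X]) (j h : ℕ) : ∃ (κ : Type) (_ : Fintype κ)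
    (_ : DecidableEq κ) (a : κ → L) (y : κ → ι → F[X]), Function.Injective a ∧
      Fintype.card κ = Module.finrank F (CC w j) ∧ (∀ g, y g ∈ Y w j) ∧
      ∀ g g', X ^ (h + 1) ∣ pr (y g) (w (a g')) - if g = g' then X ^ j else 0 := by
  obtain ⟨κ, hκ1, hκ2, a, c, ha, hcard, hc, hδ⟩ := exists_info (CC w j)
  choose y hy hyc using hc
  have hM : ∀ g g', ∃ M : F[X], pr (y g) (w (a g')) = X ^ j * M := fun g g' => hy g (a g')
  choose M hM using hM
  have hM0 : ∀ g g', (M g g').coeff 0 = if g = g' then 1 else 0 := by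
    intro g g'
    rw [← hδ g g', ← hyc g, phi_apply, hM, coeff_X_pow_mul_self]
  have hN : ∀ g g', ∃ N : F[X], M g g' = (if g = g' then 1 else 0) + X * N := by
    intro g g'
    have h1 : X ∣ M g g' - if g = g' then 1 else 0 := by
      rw [X_dvd_iff, coeff_sub, hM0]
      split_ifs
      · rw [coeff_one_zero, sub_self]
      · rw [coeff_zero, sub_self]
    obtain ⟨N, hN⟩ := h1
    exact ⟨N, by rw [← hN]; ring⟩
  choose N hN using hN
  set MM : Matrix κ κ F[X] := Matrix.of M with hMM
  set NN : Matrix κ κ F[X] := (X : F[X]) • (-Matrix.of N) with hNN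
  have h1 : MM = 1 - NN := by
    ext1 g g'
    rw [hMM, hNN, Matrix.of_apply, hN, Matrix.sub_apply, Matrix.one_apply, Matrix.smul_apply,
      Matrix.neg_apply, Matrix.of_apply, smul_eq_mul]
    ring
  have h2 : (∑ i ∈ range (h + 1), NN ^ i) * MM = 1 - NN ^ (h + 1) := by
    rw [h1]
    exact geom_sum_mul_neg NN (h + 1)
  set S : Matrix κ κ F[X] := ∑ i ∈ range (h + 1), NN ^ i with hS
  refine ⟨κ, hκ1, hκ2, a, fun g => ∑ g', S g g' • y g', ha, hcard, fun g => ?_, fun g g' => ?_⟩
  · exact (Y w j).sum_mem fun g' _ => Y_smul (hy g') _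
  · have h3 : pr (∑ k, S g k • y k) (w (a g')) = X ^ j * (S * MM) g g' := by
      rw [pr_sum, Matrix.mul_apply, mul_sum]
      refine sum_congr rfl fun k _ => ?_
      rw [pr_smul, hM, hMM, Matrix.of_apply]
      ring
    rw [h3, h2, Matrix.sub_apply, Matrix.one_apply, hNN, _root_.smul_pow, Matrix.smul_apply, smul_eq_mul]
    refine ⟨-(X ^ j * ((-Matrix.of N) ^ (h + 1)) g g'), ?_⟩
    split_ifs
    · ring
    · ring

/-- generators of `V_j` which are adapted to an information set -/
theorem exists_gen (w : L → ι → F[X]) (j h : ℕ) : ∃ (κ : Type) (_ : Fintype κ)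
    (_ : DecidableEq κ) (n : ℕ) (a : κ → L) (y : κ ⊕ Fin n → ι → F[X]), Function.Injective a ∧
      Fintype.card κ = Module.finrank F (CC w j) ∧
      (∀ x k, x ≠ Sum.inl k → X ^ (h + 1) ∣ pr (y x) (w (a k))) ∧
      ∀ v ∈ VV w j, ∃ t : κ ⊕ Fin n → F, v = ∑ x, t x • ev (y x) := by
  obtain ⟨κ, hκ1, hκ2, a, y, ha, hcard, hy, hδ⟩ := exists_dual w j h
  let b := Module.finBasis F (VV w j)
  choose z hz hzb using fun i => (b i).2
  have hα : ∀ i g, ∃ α : F[X], pr (z i) (w (a g)) = X ^ j * α := fun i g => hz i (a g)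
  choose α hα using hα
  refine ⟨κ, hκ1, hκ2, Module.finrank F (VV w j), a,
    Sum.elim y fun i => z i - ∑ g, α i g • y g, ha, hcard, ?_, ?_⟩
  · rintro (g | i) k hne
    · have h1 := hδ g k
      rw [if_neg (fun h' => hne (by rw [h'])), sub_zero] at h1
      exact h1
    · rw [Sum.elim_inr, pr_sub, pr_sum, hα]
      have h1 : X ^ j * α i k - ∑ g, pr (α i g • y g) (w (a k)) =
          -∑ g, α i g * (pr (y g) (w (a k)) - if g = k then X ^ j else 0) := by
        have h2 : ∑ g, α i g * (pr (y g) (w (a k)) - if g = k then X ^ j else 0) =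
            ∑ g, pr (α i g • y g) (w (a k)) - X ^ j * α i k := by
          rw [show X ^ j * α i k = ∑ g, if g = k then α i g * X ^ j else 0 by
            rw [sum_ite_eq' univ k, if_pos (mem_univ _), mul_comm], ← sum_sub_distrib]
          refine sum_congr rfl fun g _ => ?_
          rw [pr_smul]
          split_ifs <;> ring
        rw [h2]
        ring
      rw [h1]
      refine (dvd_neg).2 (dvd_sum fun g _ => ?_)
      exact (hδ g k).mul_left _
  · intro v hv
    set r := b.repr ⟨v, hv⟩ with hr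
    have h1 : v = ∑ i, r i • (b i : ι → F) := by
      have := congrArg (fun u : VV w j => (u : ι → F)) (b.sum_repr ⟨v, hv⟩)
      simp only [Submodule.coe_sum, Submodule.coe_smul] at this
      exact this.symm
    refine ⟨Sum.elim (fun g => ∑ i, r i * (α i g).coeff 0) fun i => r i, ?_⟩
    rw [Fintype.sum_sum_type]
    simp only [Sum.elim_inl, Sum.elim_inr]
    have h2 : ∀ i, ev (z i - ∑ g, α i g • y g) =
        (b i : ι → F) - ∑ g, (α i g).coeff 0 • ev (y g) := by
      intro i
      rw [map_sub, map_sum, hzb]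
      congr 1
      refine sum_congr rfl fun g _ => ?_
      funext x
      rw [ev_apply, Pi.smul_apply, smul_eq_mul, mul_coeff_zero, Pi.smul_apply, ev_apply,
        smul_eq_mul]
    rw [h1]
    simp only [h2, smul_sub, sum_sub_distrib, smul_sum, sum_smul, smul_smul]
    rw [sum_comm (s := (univ : Finset κ))]
    abel

end Pool.Agent.K9h26.AH
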