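import Pool.Agent.K9h26.AH.TupleR
import Pool.Agent.K9h26.AH.Flag
import Pool.Agent.W946.KosPoly
import Pool.Agent.H88R3.MM.Approx

set_option autoImplicit false
set_option linter.unusedSectionVars false

/-!
# The basic inequalities for approximate bilinear algorithms, with rectangular blocks
-/

namespace Pool.Agent.K9h26.AH

open Finset Polynomial Pool.Agent.H88R3.MM Pool.Agent.W946.Kos

variable {F : Type*} [Field F] {L : Type*} [Fintype L] {m : ℕ}

/-- approximate bilinear algorithms in coordinates -/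
def Alg (h : ℕ) (U V W : L → Matrix (Fin m) (Fin m) F[X]) : Prop :=
  ∃ R : Fin m → Fin m → Fin m → Fin m → Fin m → Fin m → F[X], ∀ i j j' k i' k',
    ∑ l, U l i j * V l j' k * W l i' k' =
      X ^ h * (if i = i' ∧ j = j' ∧ k = k' then 1 else 0) + X ^ (h + 1) * R i j j' k i' k'

/-- the output forms -/
def wf (W : L → Matrix (Fin m) (Fin m) F[X]) (l : L) : Fin m × Fin m → F[X] := fun x => W l x.1 x.2

theorem Alg.pair {h : ℕ} {U V W : L → Matrix (Fin m) (Fin m) F[X]} (H : Alg h U V W)
    (y : Fin m × Fin m → F[X]) (i j j' k : Fin m) : ∃ E : F[X],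
      ∑ l, U l i j * V l j' k * pr y (wf W l) =
        X ^ h * (if j = j' then y (i, k) else 0) + X ^ (h + 1) * E := by
  obtain ⟨R, hR⟩ := H
  refine ⟨∑ x : Fin m × Fin m, y x * R i j j' k x.1 x.2, ?_⟩
  have h1 : ∀ l, U l i j * V l j' k * pr y (wf W l) =
      ∑ x : Fin m × Fin m, y x * (U l i j * V l j' k * W l x.1 x.2) := by
    intro l
    unfold pr wf
    rw [mul_sum]
    exact sum_congr rfl fun x _ => by ring
  rw [sum_congr rfl fun l _ => h1 l, sum_comm]
  have h2 : ∀ x : Fin m × Fin m, ∑ l, y x * (U l i j * V l j' k * W l x.1 x.2) =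
      X ^ h * (y x * if i = x.1 ∧ j = j' ∧ k = x.2 then 1 else 0) +
        X ^ (h + 1) * (y x * R i j j' k x.1 x.2) := by
    intro x
    rw [← mul_sum, hR]
    ring
  rw [sum_congr rfl fun x _ => h2 x, sum_add_distrib, ← mul_sum, ← mul_sum]
  congr 2
  rw [Finset.sum_eq_single (i, k)]
  · simp
  · intro x _ hx
    rw [if_neg, mul_zero]
    rintro ⟨h3, _, h4⟩
    exact hx (Prod.ext h3.symm h4.symm)
  · intro hc
    exact absurd (mem_univ _) hc

theorem Alg.VV_eq_bot {h : ℕ} {U V W : L → Matrix (Fin m) (Fin m) F[X]} (H : Alg h U V W) :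
    VV (wf W) (h + 1) = ⊥ := by
  rw [eq_bot_iff]
  rintro _ ⟨y, hy, rfl⟩
  rw [Submodule.mem_bot]
  funext x
  obtain ⟨i, k⟩ := x
  rw [ev_apply, Pi.zero_apply]
  obtain ⟨E, hE⟩ := H.pair y i i i k
  rw [if_pos rfl] at hE
  have h1 : X ^ (h + 1) ∣ ∑ l, U l i i * V l i k * pr y (wf W l) :=
    dvd_sum fun l _ => (hy l).mul_left _
  rw [hE] at h1
  have h2 : X ^ (h + 1) ∣ X ^ h * y (i, k) := (dvd_add_left (dvd_mul_right _ _)).1 h1
  rw [pow_succ] at h2
  have h3 : X ∣ y (i, k) := (mul_dvd_mul_iff_left (pow_ne_zero h X_ne_zero)).1 h2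
  exact X_dvd_iff.1 h3

theorem Alg.map {K : Type*} [Field K] (f : F →+* K) {h : ℕ}
    {U V W : L → Matrix (Fin m) (Fin m) F[X]} (H : Alg h U V W) :
    Alg h (fun l => (U l).map (Polynomial.map f)) (fun l => (V l).map (Polynomial.map f))
      (fun l => (W l).map (Polynomial.map f)) := by
  obtain ⟨R, hR⟩ := H
  refine ⟨fun i j j' k i' k' => (R i j j' k i' k').map f, fun i j j' k i' k' => ?_⟩
  have h1 := congrArg (Polynomial.map f) (hR i j j' k i' k')
  rw [Polynomial.map_add, Polynomial.map_mul, Polynomial.map_mul, Polynomial.map_pow,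
    Polynomial.map_pow, Polynomial.map_X, Polynomial.map_sum] at h1
  have h2 : (if i = i' ∧ j = j' ∧ k = k' then (1 : F[X]) else 0).map f =
      if i = i' ∧ j = j' ∧ k = k' then (1 : K[X]) else 0 := by
    split_ifs <;> simp
  rw [h2] at h1
  rw [← h1]
  refine sum_congr rfl fun l _ => ?_
  rw [Polynomial.map_mul, Polynomial.map_mul]
  rfl

/-- the basic inequality for one step of the filtration -/
theorem Alg.coreR [Infinite F] {h : ℕ} {U V W : L → Matrix (Fin m) (Fin m) F[X]}
    (H : Alg h U V W) (j : ℕ) : ∃ lam : Fin m → ℕ, (∀ i, lam i ≤ m) ∧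
      ∑ i, lam i = Module.finrank F (VV (wf W) j) ∧ ∀ ρ γ q : ℕ, (∀ k, 1 ≤ k → k ≤ q →
        (q - k + 1) * (ρ + 1) ≤ (univ.filter fun i => k * (γ + 1) ≤ lam i).card) →
      m ^ 2 + (ρ + γ + 1) * m * q ≤ Fintype.card L + Module.finrank F (VV (wf W) (j + 1)) +
        q * ((ρ + γ + 1) * (ρ + γ).choose ρ) := by
  classical
  -- the family
  set V' : Submodule F (Fin m → Fin m → F) :=
    (VV (wf W) j).map (LinearEquiv.curry F F (Fin m) (Fin m)).toLinearMap with hV'
  have hfin : Module.finrank F V' = Module.finrank F (VV (wf W) j) :=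
    LinearEquiv.finrank_map_eq (LinearEquiv.curry F F (Fin m) (Fin m)) (VV (wf W) j)
  obtain ⟨lam, Q, hlam, hsum, hech⟩ := echelon V'
  refine ⟨lam, hlam, hsum.trans hfin, fun ρ γ q hcond => ?_⟩
  let e0 : (Fin (ρ + 1) × SubR (ρ + γ + 1) γ) ≃ (Fin (γ + 1) × SubR (ρ + γ + 1) ρ) :=
    Fintype.equivOfCardEq (card_block ρ γ)
  obtain ⟨er, ec, G, hGV, hdet⟩ := exists_tupleR ρ γ q V' e0 lam Q hlam hech hcond
  have hG : ∀ s, ∃ v ∈ VV (wf W) j, ∀ i k, G s i k = v (i, k) := by
    intro s
    obtain ⟨v, hv, hvG⟩ := hGV s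
    refine ⟨v, hv, fun i k => ?_⟩
    rw [← hvG]
    rfl
  choose v hv hvG using hG
  obtain ⟨κ, hκ1, hκ2, n, a, y, ha, hcard, hkill, hspan⟩ := exists_gen (wf W) j h
  choose t0 ht0 using fun s => hspan (v s) (hv s)
  -- the polynomial
  set σ := Fin (ρ + γ + 1) × (κ ⊕ Fin n) with hσ
  set N := Fin q × (Fin (ρ + 1) × SubR (ρ + γ + 1) γ) with hN
  have hcardN : Fintype.card N = q * ((ρ + γ + 1) * (ρ + γ).choose ρ) := by
    change Fintype.card (Fin q × (Fin (ρ + 1) × SubR (ρ + γ + 1) γ)) = _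
    rw [Fintype.card_prod, Fintype.card_fin, card_block']
  set A : (κ ⊕ Fin n) → Fin q × Fin (ρ + 1) → Fin q × Fin (γ + 1) → F := fun g x z =>
    ∑ k, ev (y g) (er x, k) * Q k (ec z) with hA
  set r : N → Fin q × Fin (ρ + 1) := fun z => (z.1, z.2.1) with hr
  set c : N → Fin q × Fin (γ + 1) := fun z => (z.1, (e0 z.2).1) with hc
  set rT : N → SubR (ρ + γ + 1) γ := fun z => z.2.2 with hrT
  set cS : N → SubR (ρ + γ + 1) ρ := fun z => (e0 z.2).2 with hcS
  set MM : Matrix N N (MvPolynomial σ F) := Matrix.of fun x z =>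
    ∑ s : Fin (ρ + γ + 1), ∑ g : (κ ⊕ Fin n), MvPolynomial.X (s, g) *
      MvPolynomial.C (A g (r x) (c z) * kosR F ρ γ s (rT x) (cS z)) with hMM
  have heval : ∀ t : σ → F, MvPolynomial.eval t MM.det =
      (Matrix.of fun x z : N => ∑ s, (∑ g, t (s, g) * A g (r x) (c z)) *
        kosR F ρ γ s (rT x) (cS z)).det := by
    intro t
    rw [RingHom.map_det]
    congr 1
    ext x z
    rw [RingHom.mapMatrix_apply, Matrix.map_apply, hMM, Matrix.of_apply, map_sum,
      Matrix.of_apply]
    refine sum_congr rfl fun s _ => ?_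
    rw [map_sum, sum_mul]
    refine sum_congr rfl fun g _ => ?_
    rw [map_mul, MvPolynomial.eval_X, MvPolynomial.eval_C]
    ring
  have hdeg : MM.det.totalDegree ≤ q * ((ρ + γ + 1) * (ρ + γ).choose ρ) := by
    rw [← hcardN]
    refine totalDegree_det_le MM fun x z => ?_
    rw [hMM, Matrix.of_apply]
    refine MvPolynomial.totalDegree_finsetSum_le fun s _ =>
      MvPolynomial.totalDegree_finsetSum_le fun g _ => ?_
    refine (MvPolynomial.totalDegree_mul _ _).trans ?_
    rw [MvPolynomial.totalDegree_C, MvPolynomial.totalDegree_X]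
  have hP0 : MM.det ≠ 0 := by
    intro h0
    have h1 := heval fun x => t0 x.1 x.2
    rw [h0, map_zero] at h1
    apply hdet
    rw [h1]
    congr 1
    ext x z
    rw [Matrix.of_apply, Matrix.of_apply]
    refine sum_congr rfl fun s _ => ?_
    congr 1
    rw [Matrix.vecMul, dotProduct]
    simp only [hA, mul_sum]
    rw [sum_comm]
    refine sum_congr rfl fun k _ => ?_
    rw [hvG, ht0 s, Finset.sum_apply, sum_mul]
    refine sum_congr rfl fun g _ => ?_
    rw [Pi.smul_apply, smul_eq_mul, mul_assoc]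
  obtain ⟨D, t, hD, htD, ht⟩ := exists_small_support hP0
  rw [heval] at ht
  -- the elements
  set ys : Fin (ρ + γ + 1) → Fin m × Fin m → F[X] := fun s => ∑ g, t (s, g) • y g with hys
  set κ' : Finset κ := univ.filter fun k => ∃ s, ((s, Sum.inl k) : σ) ∈ D with hκ'
  have hκ'card : κ'.card ≤ q * ((ρ + γ + 1) * (ρ + γ).choose ρ) := by
    have h1 : κ'.image Sum.inl ⊆ D.image (Prod.snd : σ → (κ ⊕ Fin n)) := by
      intro g hg
      obtain ⟨k, hk, rfl⟩ := mem_image.1 hg
      obtain ⟨s, hs⟩ := (mem_filter.1 hk).2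
      exact mem_image.2 ⟨_, hs, rfl⟩
    have h2 := card_le_card h1
    rw [card_image_of_injective _ Sum.inl_injective] at h2
    exact h2.trans (card_image_le.trans (hD.trans hdeg))
  have hkill' : ∀ k, k ∉ κ' → ∀ s, X ^ (h + 1) ∣ pr (ys s) (wf W (a k)) := by
    intro k hk s
    rw [hys]
    simp only
    rw [pr_sum]
    refine dvd_sum fun g _ => ?_
    rw [pr_fsmul]
    by_cases hg : g = Sum.inl k
    · have h1 : t (s, g) = 0 := by
        refine htD _ fun hc => hk ?_
        rw [hκ', mem_filter]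
        exact ⟨mem_univ _, s, hg ▸ hc⟩
      rw [h1, C_0, zero_mul]
      exact dvd_zero _
    · exact (hkill g k hg).mul_left _
  set S : Finset L := (univ.filter (· ∉ κ')).image a with hS
  have hScard : S.card + κ'.card = Fintype.card κ := by
    rw [hS, card_image_of_injective _ ha, ← card_univ (α := κ)]
    have h1 := card_filter_add_card_filter_not (s := (univ : Finset κ)) (fun g => g ∉ κ')
    rw [← h1]
    congr 2
    ext g
    simp
  -- the flattening over the polynomials
  set V2 : L → Fin m → Fin q × Fin (γ + 1) → F[X] := fun l j' z =>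
    ∑ k, V l j' k * C (Q k (ec z)) with hV2
  set Bm : Matrix (N × Fin m) (N × Fin m) F[X] := Matrix.of fun x z =>
    ∑ s, (if x.2 = z.2 then ∑ k, ys s (er (r x.1), k) * C (Q k (ec (c z.1))) else 0) *
      C (kosR F ρ γ s (rT x.1) (cS z.1)) with hBm
  have hflat : ∀ x z : N × Fin m, ∃ E : F[X], ∑ l ∈ univ \ S, U l (er (r x.1)) x.2 *
      (∑ s, pr (ys s) (wf W l) * C (kosR F ρ γ s (rT x.1) (cS z.1))) * V2 l z.2 (c z.1) =
      X ^ h * (Bm x z + X * E) := by
    intro x z
    choose E1 hE1 using fun (s : Fin (ρ + γ + 1)) (k : Fin m) =>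
      H.pair (ys s) (er (r x.1)) x.2 z.2 k
    have h1 : ∀ l ∈ S, X ^ (h + 1) ∣ U l (er (r x.1)) x.2 *
        (∑ s, pr (ys s) (wf W l) * C (kosR F ρ γ s (rT x.1) (cS z.1))) * V2 l z.2 (c z.1) := by
      intro l hl
      rw [hS, mem_image] at hl
      obtain ⟨k, hk, rfl⟩ := hl
      refine Dvd.dvd.mul_right (Dvd.dvd.mul_left (dvd_sum fun s _ => ?_) _) _
      exact (hkill' k (mem_filter.1 hk).2 s).mul_right _
    obtain ⟨E2, hE2⟩ := dvd_sum h1
    have h2 : ∑ l, U l (er (r x.1)) x.2 *
        (∑ s, pr (ys s) (wf W l) * C (kosR F ρ γ s (rT x.1) (cS z.1))) * V2 l z.2 (c z.1) =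
        X ^ h * Bm x z + X ^ (h + 1) *
          ∑ s, ∑ k, E1 s k * C (Q k (ec (c z.1))) * C (kosR F ρ γ s (rT x.1) (cS z.1)) := by
      have h3 : ∀ l, U l (er (r x.1)) x.2 *
          (∑ s, pr (ys s) (wf W l) * C (kosR F ρ γ s (rT x.1) (cS z.1))) * V2 l z.2 (c z.1) =
          ∑ s, ∑ k, (U l (er (r x.1)) x.2 * V l z.2 k * pr (ys s) (wf W l)) *
            C (Q k (ec (c z.1))) * C (kosR F ρ γ s (rT x.1) (cS z.1)) := by
        intro l
        rw [hV2]
        simp only
        rw [mul_assoc, sum_mul_sum, mul_sum]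
        refine sum_congr rfl fun s _ => ?_
        rw [mul_sum]
        refine sum_congr rfl fun k _ => ?_
        ring
      rw [sum_congr rfl fun l _ => h3 l, sum_comm]
      rw [hBm, Matrix.of_apply, mul_sum, mul_sum, ← sum_add_distrib]
      refine sum_congr rfl fun s _ => ?_
      rw [sum_comm]
      have h4 : ∀ k, ∑ l, (U l (er (r x.1)) x.2 * V l z.2 k * pr (ys s) (wf W l)) *
          C (Q k (ec (c z.1))) * C (kosR F ρ γ s (rT x.1) (cS z.1)) =
          (X ^ h * (if x.2 = z.2 then ys s (er (r x.1), k) else 0) + X ^ (h + 1) * E1 s k) *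
            C (Q k (ec (c z.1))) * C (kosR F ρ γ s (rT x.1) (cS z.1)) := by
        intro k
        rw [← hE1, sum_mul, sum_mul]
      rw [sum_congr rfl fun k _ => h4 k]
      by_cases hxz : x.2 = z.2
      · simp only [if_pos hxz]
        rw [mul_sum, sum_mul, mul_sum, ← sum_add_distrib]
        refine sum_congr rfl fun k _ => ?_
        ring
      · simp only [if_neg hxz]
        rw [zero_mul, mul_zero, zero_add, mul_sum]
        refine sum_congr rfl fun k _ => ?_
        ring
    have h3 := sum_sdiff (f := fun l => U l (er (r x.1)) x.2 *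
        (∑ s, pr (ys s) (wf W l) * C (kosR F ρ γ s (rT x.1) (cS z.1))) * V2 l z.2 (c z.1))
        (subset_univ S)
    rw [h2, hE2] at h3
    refine ⟨(∑ s, ∑ k, E1 s k * C (Q k (ec (c z.1))) *
      C (kosR F ρ γ s (rT x.1) (cS z.1))) - E2, ?_⟩
    rw [eq_sub_of_add_eq h3]
    ring
  choose E hE using hflat
  set P : Matrix (N × Fin m) (N × Fin m) F[X] := Matrix.of fun x z => Bm x z + X * E x z with hP
  -- the determinant
  have hdetP : P.det ≠ 0 := by
    intro h0
    have h1 : (Polynomial.evalRingHom (0 : F)) P.det = 0 := by rw [h0, map_zero]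
    rw [RingHom.map_det] at h1
    have h2 : (Polynomial.evalRingHom (0 : F)).mapMatrix P =
        Matrix.blockDiagonal fun _ : Fin m =>
          (Matrix.of fun x z : N => ∑ s, (∑ g, t (s, g) * A g (r x) (c z)) *
            kosR F ρ γ s (rT x) (cS z)) := by
      ext x z
      rw [RingHom.mapMatrix_apply, Matrix.map_apply, hP, Matrix.of_apply, map_add, map_mul,
        Polynomial.coe_evalRingHom, Polynomial.eval_X, zero_mul, add_zero,
        Matrix.blockDiagonal_apply, hBm, Matrix.of_apply, Polynomial.eval_finsetSum]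
      by_cases hxz : x.2 = z.2
      · simp only [if_pos hxz]
        rw [Matrix.of_apply]
        refine sum_congr rfl fun s _ => ?_
        rw [Polynomial.eval_mul, Polynomial.eval_finsetSum, Polynomial.eval_C]
        congr 1
        simp only [hA, mul_sum]
        rw [sum_comm]
        refine sum_congr rfl fun k _ => ?_
        rw [Polynomial.eval_mul, Polynomial.eval_C, ← Polynomial.coeff_zero_eq_eval_zero, hys]
        simp only [Finset.sum_apply, Pi.smul_apply, Polynomial.finsetSum_coeff,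
          Polynomial.coeff_smul, smul_eq_mul, sum_mul]
        refine sum_congr rfl fun g _ => ?_
        rw [ev_apply, mul_assoc]
      · simp only [if_neg hxz]
        refine sum_eq_zero fun s _ => ?_
        rw [zero_mul, Polynomial.eval_zero]
    rw [h2, Matrix.det_blockDiagonal, prod_const] at h1
    exact pow_ne_zero _ ht h1
  -- passing to the rational functions
  set φ : F[X] →+* RatFunc F := algebraMap F[X] (RatFunc F) with hφ
  have hφinj : Function.Injective φ := RatFunc.algebraMap_injective F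
  have hφkos : ∀ s T T', φ (C (kosR F ρ γ s T T')) = kosR (RatFunc F) ρ γ s T T' := by
    intro s T T'
    exact kosR_map (φ.comp C) s T T'
  set KK : L → Matrix (SubR (ρ + γ + 1) γ) (SubR (ρ + γ + 1) ρ) (RatFunc F) := fun l =>
    ∑ s, φ (pr (ys s) (wf W l)) • kosR (RatFunc F) ρ γ s with hKK
  set AL : L → Matrix (N × Fin m) (N × Fin m) (RatFunc F) := fun l => Matrix.of fun x z =>
    φ (U l (er (r x.1)) x.2) * KK l (rT x.1) (cS z.1) * φ (V2 l z.2 (c z.1)) with hAL
  have hup : (∑ l ∈ univ \ S, AL l).rank ≤ (univ \ S).card * (ρ + γ).choose ρ := by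
    refine (rank_sum_le _ _).trans ?_
    refine (sum_le_card_nsmul _ _ ((ρ + γ).choose ρ) fun l _ => ?_).trans
      (le_of_eq (smul_eq_mul _ _))
    refine le_trans ?_ (rank_kosR fun s => φ (pr (ys s) (wf W l)))
    exact rank_scaled (KK l)
      (fun x : N × Fin m => φ (U l (er (r x.1)) x.2)) (fun z : N × Fin m => φ (V2 l z.2 (c z.1)))
      (fun x => rT x.1) (fun z => cS z.1)
  have hlow : (∑ l ∈ univ \ S, AL l).rank = Fintype.card (N × Fin m) := by
    have h1 : ∑ l ∈ univ \ S, AL l = φ.mapMatrix ((X ^ h : F[X]) • P) := by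
      ext x z
      rw [RingHom.mapMatrix_apply, Matrix.map_apply, Matrix.smul_apply, smul_eq_mul, hP,
        Matrix.of_apply, ← hE x z, map_sum, Matrix.sum_apply]
      refine sum_congr rfl fun l _ => ?_
      have h2 : φ (∑ s, pr (ys s) (wf W l) * C (kosR F ρ γ s (rT x.1) (cS z.1))) =
          KK l (rT x.1) (cS z.1) := by
        rw [map_sum]
        change _ = (∑ s, φ (pr (ys s) (wf W l)) • kosR (RatFunc F) ρ γ s) (rT x.1) (cS z.1)
        rw [Matrix.sum_apply]
        refine sum_congr rfl fun s _ => ?_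
        rw [map_mul, hφkos, Matrix.smul_apply, smul_eq_mul]
      rw [map_mul, map_mul, h2, hAL]
      simp only [Matrix.of_apply]
    rw [h1]
    refine Matrix.rank_of_det_ne_zero ?_
    rw [← RingHom.map_det, Matrix.det_smul]
    intro h2
    have h3 := (map_eq_zero_iff φ hφinj).1 h2
    rcases mul_eq_zero.1 h3 with h4 | h4
    · exact pow_ne_zero _ (pow_ne_zero _ X_ne_zero) h4
    · exact hdetP h4
  -- conclusion
  rw [hlow, Fintype.card_prod, hcardN, Fintype.card_fin] at hup
  have h1 : (univ \ S).card + S.card = Fintype.card L := by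
    rw [← card_univ]
    exact card_sdiff_add_card_eq_card (subset_univ S)
  have hpos : 0 < (ρ + γ).choose ρ := Nat.choose_pos (by omega)
  have h4 : (ρ + γ + 1) * m * q ≤ (univ \ S).card := by
    refine Nat.le_of_mul_le_mul_right (c := (ρ + γ).choose ρ) ?_ hpos
    calc (ρ + γ + 1) * m * q * (ρ + γ).choose ρ
        = q * ((ρ + γ + 1) * (ρ + γ).choose ρ) * m := by ring
      _ ≤ _ := hup
  have h5 := card_le (wf W) j
  rw [← hcard, Fintype.card_prod, Fintype.card_fin] at h5
  have h6 : m ^ 2 = m * m := sq m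
  omega

end Pool.Agent.K9h26.AH
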