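import Pool.Agent.W946.Kos

set_option autoImplicit false

/-!
# Echelon form of a space of matrices, and families with invertible Koszul flattening
-/

namespace Pool.Agent.K9h26.AH

open Finset Pool.Agent.W946.Kos

variable {F : Type*} [Field F] {m : ℕ}

/-- the matrices of `V` whose first `i` rows vanish -/
def low (V : Submodule F (Fin m → Fin m → F)) (i : ℕ) : Submodule F (Fin m → Fin m → F) where
  carrier := {A | A ∈ V ∧ ∀ i' : Fin m, (i' : ℕ) < i → A i' = 0}
  add_mem' := fun {A B} hA hB => ⟨V.add_mem hA.1 hB.1, fun i' h => by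
    rw [Pi.add_apply, hA.2 i' h, hB.2 i' h, add_zero]⟩
  zero_mem' := ⟨V.zero_mem, fun _ _ => rfl⟩
  smul_mem' := fun c {A} hA => ⟨V.smul_mem c hA.1, fun i' h => by
    rw [Pi.smul_apply, hA.2 i' h, smul_zero]⟩

theorem mem_low {V : Submodule F (Fin m → Fin m → F)} {i : ℕ} {A : Fin m → Fin m → F} :
    A ∈ low V i ↔ A ∈ V ∧ ∀ i' : Fin m, (i' : ℕ) < i → A i' = 0 := Iff.rfl

/-- the `i`-th rows of the matrices of `V` whose earlier rows vanish -/
def row (V : Submodule F (Fin m → Fin m → F)) (i : Fin m) : Submodule F (Fin m → F) :=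
  (low V i).map (LinearMap.proj i)

theorem finrank_low (V : Submodule F (Fin m → Fin m → F)) (i : Fin m) :
    Module.finrank F (low V i) =
      Module.finrank F (row V i) + Module.finrank F (low V (i + 1)) := by
  set g : low V i →ₗ[F] (Fin m → F) := (LinearMap.proj i).domRestrict (low V i) with hg
  have h1 := LinearMap.finrank_range_add_finrank_ker g
  have h2 : LinearMap.range g = row V i := by
    rw [hg, LinearMap.range_domRestrict]
    rfl
  have h3 : (LinearMap.ker g).map (low V i).subtype = low V (i + 1) := by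
    ext A
    rw [Submodule.mem_map]
    constructor
    · rintro ⟨⟨B, hB⟩, hk, rfl⟩
      refine ⟨hB.1, fun i' hi' => ?_⟩
      rcases Nat.lt_succ_iff_lt_or_eq.1 hi' with h | h
      · exact hB.2 i' h
      · have h4 : i' = i := Fin.ext h
        rw [h4]
        exact hk
    · rintro ⟨hA, h4⟩
      exact ⟨⟨A, hA, fun i' hi' => h4 i' (by omega)⟩, h4 i (by omega), rfl⟩
  rw [← h1, h2, ← h3]
  congr 1
  exact (Submodule.finrank_map_subtype_eq _ _).symm

theorem finrank_eq_sum (V : Submodule F (Fin m → Fin m → F)) :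
    Module.finrank F V = ∑ i, Module.finrank F (row V i) := by
  have key : ∀ k : ℕ, k ≤ m → Module.finrank F V =
      ∑ i : Fin m, (if (i : ℕ) < k then Module.finrank F (row V i) else 0) +
        Module.finrank F (low V k) := by
    intro k
    induction k with
    | zero =>
      intro _
      have : low V 0 = V := by
        ext A
        rw [mem_low]
        exact ⟨fun h => h.1, fun h => ⟨h, fun i' hi' => absurd hi' (Nat.not_lt_zero _)⟩⟩
      rw [this]
      simp
    | succ k ih =>
      intro hk
      rw [ih (by omega)]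
      have h1 := finrank_low V ⟨k, by omega⟩
      simp only at h1
      rw [h1, ← add_assoc]
      congr 1
      have h2 : ∀ i : Fin m, (if (i : ℕ) < k + 1 then Module.finrank F (row V i) else 0) =
          (if (i : ℕ) < k then Module.finrank F (row V i) else 0) +
            if i = ⟨k, by omega⟩ then Module.finrank F (row V i) else 0 := by
        intro i
        rcases lt_trichotomy (i : ℕ) k with h | h | h
        · rw [if_pos (by omega), if_pos h, if_neg (fun h' => by
            have := congrArg Fin.val h'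
            simp only at this
            omega), add_zero]
        · rw [if_pos (by omega), if_neg (by omega), if_pos (Fin.ext h), zero_add]
        · rw [if_neg (by omega), if_neg (by omega), if_neg (fun h' => by
            have := congrArg Fin.val h'
            simp only at this
            omega)]
      rw [sum_congr rfl fun i _ => h2 i, sum_add_distrib, sum_ite_eq', if_pos (mem_univ _)]
  rw [key m le_rfl]
  have h1 : low V m = ⊥ := by
    rw [eq_bot_iff]
    rintro A ⟨_, h⟩
    rw [Submodule.mem_bot]
    funext i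
    exact h i i.2
  rw [h1, finrank_bot, add_zero]
  exact sum_congr rfl fun i _ => by rw [if_pos i.2]

/-- generic coordinates for finitely many subspaces -/
theorem exists_generic [Infinite F] {ι : Type*} [Fintype ι] {n : ℕ}
    (W : ι → Submodule F (Fin n → F)) : ∃ Q : Matrix (Fin n) (Fin n) F, ∀ i, ∀ x ∈ W i,
      (∀ c : Fin n, (c : ℕ) < Module.finrank F (W i) → Matrix.vecMul x Q c = 0) → x = 0 := by
  classical
  have hd : ∀ i, Module.finrank F (W i) ≤ n := fun i => by
    have := Submodule.finrank_le (W i)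
    rwa [Module.finrank_fintype_fun_eq_card, Fintype.card_fin] at this
  let b : ∀ i, Module.Basis (Fin (Module.finrank F (W i))) F (W i) := fun i => Module.finBasis F (W i)
  let PM : ∀ i, Matrix (Fin (Module.finrank F (W i))) (Fin (Module.finrank F (W i)))
      (MvPolynomial (Fin n × Fin n) F) := fun i => Matrix.of fun r c =>
    ∑ k, MvPolynomial.C ((b i r : Fin n → F) k) * MvPolynomial.X (k, Fin.castLE (hd i) c)
  have heval : ∀ i (Q : Matrix (Fin n) (Fin n) F),
      MvPolynomial.eval (fun x : Fin n × Fin n => Q x.1 x.2) (PM i).det =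
        (Matrix.of fun r c => Matrix.vecMul (b i r : Fin n → F) Q (Fin.castLE (hd i) c)).det := by
    intro i Q
    rw [RingHom.map_det]
    congr 1
    ext r c
    rw [RingHom.mapMatrix_apply, Matrix.map_apply]
    simp only [PM, Matrix.of_apply, map_sum, map_mul, MvPolynomial.eval_C, MvPolynomial.eval_X]
    rfl
  have hne : ∀ i, (PM i).det ≠ 0 := by
    intro i h0
    -- a left inverse of the inclusion
    let f : (Fin (Module.finrank F (W i)) → F) →ₗ[F] (Fin n → F) :=
      (W i).subtype ∘ₗ (b i).equivFun.symm.toLinearMap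
    have hf : Function.Injective f :=
      (W i).injective_subtype.comp (b i).equivFun.symm.injective
    obtain ⟨g, hg⟩ := LinearMap.exists_leftInverse_of_injective f (LinearMap.ker_eq_bot.2 hf)
    set Q : Matrix (Fin n) (Fin n) F := Matrix.of fun k c =>
      if h : (c : ℕ) < Module.finrank F (W i) then g (Pi.single k 1) ⟨c, h⟩ else 0 with hQ
    have h1 := heval i Q
    rw [h0, map_zero] at h1
    have h2 : (Matrix.of fun r c => Matrix.vecMul (b i r : Fin n → F) Q (Fin.castLE (hd i) c)) =
        (1 : Matrix (Fin (Module.finrank F (W i))) (Fin (Module.finrank F (W i))) F) := by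
      ext r c
      rw [Matrix.of_apply]
      have h3 : Matrix.vecMul (b i r : Fin n → F) Q (Fin.castLE (hd i) c) =
          g (b i r : Fin n → F) c := by
        have h4 : (b i r : Fin n → F) = ∑ k, (b i r : Fin n → F) k • Pi.single k 1 := by
          funext k'
          rw [Finset.sum_apply, Finset.sum_eq_single k']
          · simp
          · intro k _ hk
            simp [Ne.symm hk]
          · intro hc
            exact absurd (mem_univ _) hc
        conv_rhs => rw [h4, map_sum, Finset.sum_apply]
        rw [Matrix.vecMul, dotProduct]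
        refine sum_congr rfl fun k _ => ?_
        rw [hQ, Matrix.of_apply, dif_pos (by simp), map_smul, Pi.smul_apply, smul_eq_mul]
        rfl
      have h5 : f (Pi.single r 1) = (b i r : Fin n → F) := by
        simp only [f, LinearMap.comp_apply, LinearEquiv.coe_coe, Submodule.subtype_apply]
        congr 1
        rw [Module.Basis.equivFun_symm_apply]
        simp [Pi.single_apply]
      have h6 : g (b i r : Fin n → F) = Pi.single r 1 := by
        rw [← h5]
        exact LinearMap.congr_fun hg _
      rw [h3, h6, Pi.single_apply, Matrix.one_apply]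
      exact if_congr eq_comm rfl rfl
    rw [h2, Matrix.det_one] at h1
    exact zero_ne_one h1
  have hprod : (∏ i, (PM i).det) ≠ 0 := prod_ne_zero_iff.2 fun i _ => hne i
  obtain ⟨t, ht⟩ : ∃ t : Fin n × Fin n → F, MvPolynomial.eval t (∏ i, (PM i).det) ≠ 0 := by
    by_contra hcon
    push Not at hcon
    exact hprod (MvPolynomial.funext fun t => by rw [hcon t, map_zero])
  rw [map_prod] at ht
  refine ⟨Matrix.of fun k c => t (k, c), fun i x hx h => ?_⟩
  have h0 := prod_ne_zero_iff.1 ht i (mem_univ _)
  have h1 : MvPolynomial.eval (fun x : Fin n × Fin n =>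
      (Matrix.of fun k c => t (k, c) : Matrix (Fin n) (Fin n) F) x.1 x.2) (PM i).det ≠ 0 := h0
  rw [heval i (Matrix.of fun k c => t (k, c))] at h1
  set α := (b i).repr ⟨x, hx⟩ with hα
  have h2 : x = ∑ r, α r • (b i r : Fin n → F) := by
    have := congrArg (fun y : W i => (y : Fin n → F)) ((b i).sum_repr ⟨x, hx⟩)
    simp only [Submodule.coe_sum, Submodule.coe_smul] at this
    exact this.symm
  have h3 : (fun r => α r) = 0 := by
    refine Matrix.eq_zero_of_vecMul_eq_zero h1 ?_
    funext c
    rw [Pi.zero_apply, Matrix.vecMul, dotProduct]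
    have h4 := h (Fin.castLE (hd i) c) (by simp)
    rw [h2, Matrix.sum_vecMul, Finset.sum_apply] at h4
    rw [← h4]
    refine sum_congr rfl fun r _ => ?_
    rw [Matrix.smul_vecMul, Pi.smul_apply, smul_eq_mul]
    rfl
  rw [h2]
  refine sum_eq_zero fun r _ => ?_
  have := congrFun h3 r
  simp only [Pi.zero_apply] at this
  rw [this, zero_smul]

/-- **Echelon form**: a space of matrices has, in suitable coordinates, free entries in the
positions of a diagram. -/
theorem echelon [Infinite F] (V : Submodule F (Fin m → Fin m → F)) :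
    ∃ (lam : Fin m → ℕ) (Q : Matrix (Fin m) (Fin m) F), (∀ i, lam i ≤ m) ∧
      ∑ i, lam i = Module.finrank F V ∧ ∀ τ : Fin m → Fin m → F, ∃ A ∈ V,
        ∀ i c : Fin m, (c : ℕ) < lam i → Matrix.vecMul (A i) Q c = τ i c := by
  classical
  obtain ⟨Q, hQ⟩ := exists_generic (F := F) (fun i => row V i)
  have hd : ∀ i, Module.finrank F (row V i) ≤ m := fun i => by
    have := Submodule.finrank_le (row V i)
    rwa [Module.finrank_fintype_fun_eq_card, Fintype.card_fin] at this
  refine ⟨fun i => Module.finrank F (row V i), Q, hd, (finrank_eq_sum V).symm, ?_⟩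
  let Ψ : V →ₗ[F] ((Σ i : Fin m, Fin (Module.finrank F (row V i))) → F) :=
    { toFun := fun A x => Matrix.vecMul ((A : Fin m → Fin m → F) x.1) Q (Fin.castLE (hd x.1) x.2)
      map_add' := fun A B => by
        funext x
        simp only [Submodule.coe_add, Pi.add_apply, Matrix.add_vecMul]
      map_smul' := fun c A => by
        funext x
        simp only [Submodule.coe_smul, Pi.smul_apply, Matrix.smul_vecMul, RingHom.id_apply] }
  have hinj : Function.Injective Ψ := by
    rw [← LinearMap.ker_eq_bot, LinearMap.ker_eq_bot']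
    rintro ⟨A, hA⟩ h0
    have h1 : ∀ k : ℕ, ∀ i : Fin m, (i : ℕ) < k → A i = 0 := by
      intro k
      induction k with
      | zero => exact fun i hi => absurd hi (Nat.not_lt_zero _)
      | succ k ih =>
        intro i hi
        rcases Nat.lt_succ_iff_lt_or_eq.1 hi with h | h
        · exact ih i h
        · refine hQ i (A i) ?_ fun c hc => ?_
          · exact ⟨A, ⟨hA, fun i' hi' => ih i' (by omega)⟩, rfl⟩
          · exact congrFun h0 ⟨i, ⟨c, hc⟩⟩
    refine Subtype.ext ?_
    funext i
    exact h1 m i i.2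
  have hsurj : Function.Surjective Ψ := by
    refine (LinearMap.injective_iff_surjective_of_finrank_eq_finrank ?_).1 hinj
    rw [Module.finrank_fintype_fun_eq_card, Fintype.card_sigma, finrank_eq_sum V]
    simp
  intro τ
  obtain ⟨⟨A, hA⟩, h1⟩ := hsurj fun x => τ x.1 (Fin.castLE (hd x.1) x.2)
  exact ⟨A, hA, fun i c hc => congrFun h1 ⟨i, ⟨c, hc⟩⟩⟩

open scoped Kronecker in
/-- **Families in a large space with invertible Koszul flattening** -/
theorem exists_tuple [Infinite F] (p q : ℕ) (V : Submodule F (Fin m → Fin m → F)) (hm : 0 < m)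
    (hd : (q + 1) * (p + 1) * m ≤ Module.finrank F V) :
    ∃ (Q : Matrix (Fin m) (Fin m) F) (er ec : Fin q × Fin (p + 1) → Fin m)
      (G : Fin (2 * p + 1) → Fin m → Fin m → F), (∀ s, G s ∈ V) ∧
      (∑ s, (Matrix.of fun x y => Matrix.vecMul (G s (er x)) Q (ec y) :
        Matrix (Fin q × Fin (p + 1)) (Fin q × Fin (p + 1)) F) ⊗ₖ kos F p s).det ≠ 0 := by
  classical
  obtain ⟨lam, Q, hlam, hsum, hech⟩ := echelon V
  obtain ⟨a, ha⟩ : ∃ c : Fin (2 * p + 1) → F, Function.Injective c :=
    ⟨fun i => Infinite.natEmbedding F i, fun i j hij =>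
      Fin.ext ((Infinite.natEmbedding F).injective hij)⟩
  have hqm : (q + 1) * (p + 1) ≤ m := by
    have h1 : Module.finrank F V ≤ m * m := by
      rw [← hsum]
      refine (sum_le_sum fun i _ => hlam i).trans ?_
      simp
    exact Nat.le_of_mul_le_mul_right (hd.trans h1) hm
  have hqp : q * (p + 1) ≤ m := by
    refine le_trans (Nat.mul_le_mul_right _ (Nat.le_succ q)) hqm
  set ec : Fin q × Fin (p + 1) → Fin m := fun x => Fin.castLE hqp (finProdFinEquiv x) with hec
  set σ := Tuple.sort lam with hσ
  have hmono : Monotone (lam ∘ σ) := Tuple.monotone_sort lam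
  set er : Fin q × Fin (p + 1) → Fin m := fun x =>
    σ (Fin.rev (Fin.castLE hqp (finProdFinEquiv (Fin.rev x.1, x.2)))) with her
  have herinj : Function.Injective er := by
    intro x y hxy
    have h1 := Fin.rev_injective (σ.injective hxy)
    have h2 := finProdFinEquiv.injective (Fin.castLE_injective hqp h1)
    rw [Prod.mk.injEq] at h2
    exact Prod.ext (Fin.rev_injective h2.1) h2.2
  -- the chosen rows are long
  have hlong : ∀ x : Fin q × Fin (p + 1), ((x.1 : ℕ) + 1) * (p + 1) ≤ lam (er x) := by
    rintro ⟨k, x⟩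
    by_contra hcon
    rw [not_le] at hcon
    simp only at hcon
    set pos : Fin m := Fin.rev (Fin.castLE hqp (finProdFinEquiv (Fin.rev k, x))) with hpos
    have hcon' : lam (σ pos) < ((k : ℕ) + 1) * (p + 1) := hcon
    have hposv : (pos : ℕ) + 1 + ((x : ℕ) + (p + 1) * (q - (k + 1))) = m := by
      have h1 : (pos : ℕ) = m - ((x : ℕ) + (p + 1) * (q - (k + 1)) + 1) := by
        rw [hpos, Fin.val_rev, Fin.val_castLE, finProdFinEquiv_apply_val]
        simp only [Fin.val_rev]
      have h2 : (x : ℕ) + (p + 1) * (q - (k + 1)) + 1 ≤ m := by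
        have h3 := x.2
        have h4 : (p + 1) * (q - (k + 1)) + (p + 1) ≤ q * (p + 1) := by
          have h5 : q - (k + 1) + 1 ≤ q := by
            have := k.2
            omega
          calc (p + 1) * (q - (k + 1)) + (p + 1) = (q - (k + 1) + 1) * (p + 1) := by ring
            _ ≤ q * (p + 1) := Nat.mul_le_mul_right _ h5
        omega
      omega
    have h1 : ∀ j : Fin m, lam (σ j) ≤ (((k : ℕ) + 1) * (p + 1) - 1) + if pos < j then m else 0 := by
      intro j
      by_cases hj : pos < j
      · rw [if_pos hj]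
        exact (hlam _).trans (Nat.le_add_left _ _)
      · rw [if_neg hj, add_zero]
        have := hmono (not_lt.1 hj)
        simp only [Function.comp_apply] at this
        omega
    have h2 : Module.finrank F V ≤ m * (((k : ℕ) + 1) * (p + 1) - 1) +
        m * ((x : ℕ) + (p + 1) * (q - (k + 1))) := by
      rw [← hsum, ← Equiv.sum_comp σ]
      refine (sum_le_sum fun j _ => h1 j).trans ?_
      rw [sum_add_distrib, sum_const, card_univ, Fintype.card_fin, smul_eq_mul, ← sum_filter,
        sum_const, smul_eq_mul]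
      refine Nat.add_le_add_left ?_ _
      rw [mul_comm]
      refine Nat.mul_le_mul_left _ (le_of_eq ?_)
      have h3 : (univ.filter fun j : Fin m => pos < j) = Ioi pos := by
        ext j
        simp
      rw [h3, Fin.card_Ioi]
      omega
    have h3 : (((k : ℕ) + 1) * (p + 1) - 1) + ((x : ℕ) + (p + 1) * (q - (k + 1))) <
        (q + 1) * (p + 1) := by
      have h4 := x.2
      have h5 : ((k : ℕ) + 1) * (p + 1) + (p + 1) * (q - (k + 1)) + (p + 1) ≤
          (q + 1) * (p + 1) := by
        have h6 : (k : ℕ) + 1 + (q - (k + 1)) + 1 ≤ q + 1 := by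
          have := k.2
          omega
        calc ((k : ℕ) + 1) * (p + 1) + (p + 1) * (q - (k + 1)) + (p + 1)
            = ((k : ℕ) + 1 + (q - (k + 1)) + 1) * (p + 1) := by ring
          _ ≤ _ := Nat.mul_le_mul_right _ h6
      omega
    have h4 : m * (((k : ℕ) + 1) * (p + 1) - 1) + m * ((x : ℕ) + (p + 1) * (q - (k + 1))) <
        (q + 1) * (p + 1) * m := by
      rw [← mul_add, mul_comm]
      exact Nat.mul_lt_mul_of_pos_right h3 hm
    omega
  -- the targets
  choose G hGV hG using fun s : Fin (2 * p + 1) => hech fun i c =>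
    ∑ x : Fin q × Fin (p + 1), if er x = i ∧ (c : ℕ) / (p + 1) = x.1 then
      a s ^ (x.2 : ℕ) * a s ^ ((c : ℕ) % (p + 1)) else 0
  refine ⟨Q, er, ec, G, hGV, ?_⟩
  have hentry : ∀ s (x y : Fin q × Fin (p + 1)), y.1 ≤ x.1 →
      Matrix.vecMul (G s (er x)) Q (ec y) = good q p a s x y := by
    intro s x y hxy
    have hval : ((ec y : Fin m) : ℕ) = (y.2 : ℕ) + (p + 1) * (y.1 : ℕ) := by
      rw [hec]
      simp only [Fin.val_castLE, finProdFinEquiv_apply_val]
    have h1 : ((ec y : Fin m) : ℕ) < lam (er x) := by
      refine lt_of_lt_of_le ?_ (hlong x)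
      rw [hval]
      have h2 := y.2.2
      have h3 : (p + 1) * ((y.1 : ℕ) + 1) ≤ ((x.1 : ℕ) + 1) * (p + 1) := by
        rw [mul_comm]
        refine Nat.mul_le_mul_right _ ?_
        have : (y.1 : ℕ) ≤ x.1 := hxy
        omega
      have h4 : (p + 1) * ((y.1 : ℕ) + 1) = (p + 1) * (y.1 : ℕ) + (p + 1) := by ring
      omega
    rw [hG s (er x) (ec y) h1]
    have hdiv : ((ec y : Fin m) : ℕ) / (p + 1) = y.1 := by
      rw [hval, Nat.add_mul_div_left _ _ (Nat.succ_pos p), Nat.div_eq_of_lt y.2.2, zero_add]
    have hmod : ((ec y : Fin m) : ℕ) % (p + 1) = y.2 := by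
      rw [hval, Nat.add_mul_mod_self_left, Nat.mod_eq_of_lt y.2.2]
    rw [hdiv, hmod, Finset.sum_eq_single x]
    · unfold good
      rw [Matrix.of_apply]
      by_cases h : x.1 = y.1
      · rw [if_pos ⟨rfl, by rw [h]⟩, if_pos h]
      · rw [if_neg (fun h' => h (Fin.ext h'.2.symm)), if_neg h]
    · intro z _ hz
      rw [if_neg (fun h' => hz (herinj h'.1))]
    · intro h
      exact absurd (mem_univ _) h
  have hgood := good_det_ne_zero q ha
  set M : Matrix ((Fin q × Fin (p + 1)) × Sub p) ((Fin q × Fin (p + 1)) × Sub p) F :=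
    ∑ s, (Matrix.of fun x y => Matrix.vecMul (G s (er x)) Q (ec y) :
        Matrix (Fin q × Fin (p + 1)) (Fin q × Fin (p + 1)) F) ⊗ₖ kos F p s with hM
  set M0 : Matrix ((Fin q × Fin (p + 1)) × Sub p) ((Fin q × Fin (p + 1)) × Sub p) F :=
    ∑ s, good q p a s ⊗ₖ kos F p s with hM0
  let β : (Fin q × Fin (p + 1)) × Sub p → Fin q := fun z => z.1.1
  have hMe : ∀ z z' : (Fin q × Fin (p + 1)) × Sub p, z'.1.1 ≤ z.1.1 → M z z' = M0 z z' := by
    intro z z' h
    rw [hM, hM0, Matrix.sum_apply, Matrix.sum_apply]
    refine sum_congr rfl fun s _ => ?_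
    rw [Matrix.kroneckerMap_apply, Matrix.kroneckerMap_apply, Matrix.of_apply,
      hentry s z.1 z'.1 h]
  have hM0z : ∀ z z' : (Fin q × Fin (p + 1)) × Sub p, z.1.1 ≠ z'.1.1 → M0 z z' = 0 := by
    intro z z' h
    rw [hM0, Matrix.sum_apply]
    refine sum_eq_zero fun s _ => ?_
    rw [Matrix.kroneckerMap_apply]
    unfold good
    rw [Matrix.of_apply, if_neg h, zero_mul]
  have hbt : M.BlockTriangular β := by
    intro z z' h
    rw [hMe z z' (le_of_lt h)]
    exact hM0z z z' (ne_of_gt h)
  have hbt0 : M0.BlockTriangular β := by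
    intro z z' h
    exact hM0z z z' (ne_of_gt h)
  rw [hbt.det_fintype]
  rw [hbt0.det_fintype] at hgood
  convert hgood using 2
  congr 1
  ext z z'
  exact hMe z.1 z'.1 (le_of_eq (z'.2.trans z.2.symm))

end Pool.Agent.K9h26.AH
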