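import Pool.Agent.K9h26.AH.QCirc
import Pool.Agent.H88R3.MM.Approx

set_option autoImplicit false
set_option linter.unusedSectionVars false

/-!
# The lower bound for approximate algorithms of given error degree
-/

namespace Pool.Agent.K9h26.AH

open Finset Polynomial Pool.Agent.H88R3.MM Pool.Agent.H522R2 Pool.Agent.H522R2.Circuit

/-- the error term -/
noncomputable def err (p m : ℕ) : ℝ :=
  (m : ℝ) ^ 2 / (p + 1) + (2 * (2 * p + 1) + (2 * p + 1).choose p) * m

theorem step {N m d d' p : ℕ} (hm : 0 < m) (hd : d ≤ m ^ 2) (h0 : m ^ 2 ≤ N + d')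
    (h : ∀ q, (q + 1) * (p + 1) * m ≤ d →
      m ^ 2 + (2 * p + 1) * m * q ≤ N + d' + q * (p + 1) * (2 * p + 1).choose p) :
    (m : ℝ) ^ 2 + 2 * d ≤ N + d' + err p m := by
  have hm' : (0 : ℝ) < m := by exact_mod_cast hm
  have hp : (0 : ℝ) < p + 1 := by positivity
  have hdR : (d : ℝ) ≤ (m : ℝ) ^ 2 := by exact_mod_cast hd
  rcases lt_or_ge d ((p + 1) * m) with h1 | h1
  · have h2 : (d : ℝ) < (p + 1) * m := by exact_mod_cast h1
    have h3 : (m : ℝ) ^ 2 ≤ N + d' := by exact_mod_cast h0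
    have h4 : 2 * ((p + 1 : ℝ) * m) ≤ err p m := by
      unfold err
      have h5 : (0 : ℝ) ≤ (m : ℝ) ^ 2 / (p + 1) := by positivity
      have h6 : (0 : ℝ) ≤ ((2 * p + 1).choose p : ℝ) * m := by positivity
      have h7 : (0 : ℝ) ≤ (p : ℝ) * m := by positivity
      nlinarith
    linarith
  · -- the number of blocks
    set q := d / ((p + 1) * m) - 1 with hq
    have hpos : 0 < (p + 1) * m := Nat.mul_pos (Nat.succ_pos p) hm
    have h2 : 1 ≤ d / ((p + 1) * m) := (Nat.one_le_div_iff hpos).2 h1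
    have h3 : q + 1 = d / ((p + 1) * m) := by omega
    have h4 : (q + 1) * (p + 1) * m ≤ d := by
      rw [h3, mul_assoc]
      exact Nat.div_mul_le_self _ _
    have h5 := h q h4
    have h6 : d < (q + 2) * ((p + 1) * m) := by
      have h8 := Nat.lt_mul_div_succ d hpos
      rw [← h3] at h8
      calc d < (p + 1) * m * (q + 1 + 1) := h8
        _ = _ := by ring
    have h7 : q * (p + 1) ≤ m := by
      have h8 : q * (p + 1) * m ≤ m * m := by
        calc q * (p + 1) * m ≤ (q + 1) * (p + 1) * m :=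
              Nat.mul_le_mul_right _ (Nat.mul_le_mul_right _ (Nat.le_succ q))
          _ ≤ d := h4
          _ ≤ m ^ 2 := hd
          _ = m * m := sq m
      exact Nat.le_of_mul_le_mul_right h8 hm
    have h5R : (m : ℝ) ^ 2 + (2 * p + 1) * m * q ≤ N + d' + m * (2 * p + 1).choose p := by
      have h9 : m ^ 2 + (2 * p + 1) * m * q ≤ N + d' + m * (2 * p + 1).choose p :=
        h5.trans (Nat.add_le_add_left (Nat.mul_le_mul_right _ h7) _)
      exact_mod_cast h9
    have h6R : (d : ℝ) ≤ (q + 2) * ((p + 1) * m) := by exact_mod_cast h6.le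
    have h10 : (2 * p + 1 : ℝ) * d / (p + 1) ≤ (2 * p + 1) * m * q + 2 * (2 * p + 1) * m := by
      rw [div_le_iff₀ hp]
      have h11 := mul_le_mul_of_nonneg_left h6R (by positivity : (0 : ℝ) ≤ 2 * p + 1)
      calc (2 * p + 1 : ℝ) * d ≤ (2 * p + 1) * ((q + 2) * ((p + 1) * m)) := h11
        _ = _ := by ring
    have h12 : (2 * p + 1 : ℝ) * d / (p + 1) = 2 * d - d / (p + 1) := by
      field_simp
      ring
    have h13 : (d : ℝ) / (p + 1) ≤ (m : ℝ) ^ 2 / (p + 1) := by gcongr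
    unfold err
    rw [h12] at h10
    linarith

theorem iterate {x D0 : ℝ} (d : ℕ → ℝ) (n : ℕ) (h0 : d 0 = D0)
    (h : ∀ j, j < n → 2 * d j ≤ x + d (j + 1)) : 2 ^ n * D0 ≤ (2 ^ n - 1) * x + d n := by
  induction n with
  | zero =>
    rw [← h0]
    simp
  | succ n ih =>
    have h1 := ih fun j hj => h j (by omega)
    have h2 := h n (by omega)
    rw [pow_succ]
    linarith

/-- the explicit lower bound -/
theorem QAlg.bound {F : Type*} [Field F] {L : Type*} [Fintype L] {m h : ℕ}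
    {u v : L → Vars m → F[X]} {w : L → Fin m × Fin m → F[X]} (H : QAlg h u v w) (hm : 0 < m)
    (p : ℕ) : (2 + 1 / (2 ^ (h + 1) - 1)) * (m : ℝ) ^ 2 ≤ Fintype.card L + err p m := by
  -- over the algebraic closure
  have H' := H.map (algebraMap F (AlgebraicClosure F))
  set w' : L → Fin m × Fin m → (AlgebraicClosure F)[X] := fun l a =>
    (w l a).map (algebraMap F (AlgebraicClosure F)) with hw'
  set d : ℕ → ℕ := fun j => Module.finrank (AlgebraicClosure F) (VV w' j) with hd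
  have hdle : ∀ j, d j ≤ m ^ 2 := by
    intro j
    have h1 := Submodule.finrank_le (VV w' j)
    rw [Module.finrank_fintype_fun_eq_card, Fintype.card_prod, Fintype.card_fin] at h1
    rw [sq]
    exact h1
  have hd0 : d 0 = m ^ 2 := by
    rw [hd]
    simp only
    rw [VV_zero, finrank_top, Module.finrank_fintype_fun_eq_card, Fintype.card_prod,
      Fintype.card_fin, sq]
  have hdh : d (h + 1) = 0 := by
    rw [hd]
    simp only
    rw [H'.VV_eq_bot, finrank_bot]
  have hstep : ∀ j, (m : ℝ) ^ 2 + 2 * d j ≤ Fintype.card L + d (j + 1) + err p m := by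
    intro j
    refine step hm (hdle j) ?_ fun q hq => H'.core hm j p q hq
    have h1 := card_le w' j
    have h2 := Submodule.finrank_le (CC w' j)
    rw [Module.finrank_fintype_fun_eq_card] at h2
    rw [Fintype.card_prod, Fintype.card_fin] at h1
    have h3 : m ^ 2 = m * m := sq m
    have h4 : d (j + 1) = Module.finrank (AlgebraicClosure F) (VV w' (j + 1)) := rfl
    omega
  set x : ℝ := Fintype.card L + err p m - (m : ℝ) ^ 2 with hx
  have h1 := iterate (x := x) (D0 := (m : ℝ) ^ 2) (fun j => (d j : ℝ)) (h + 1)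
    (by simp only [hd0]; push_cast; rfl) fun j _ => by
      have := hstep j
      linarith
  simp only [hdh, Nat.cast_zero, add_zero] at h1
  have h2 : (1 : ℝ) < 2 ^ (h + 1) := one_lt_pow₀ (by norm_num) (by omega)
  have h3 : (0 : ℝ) < 2 ^ (h + 1) - 1 := by linarith
  have h4 : 2 ^ (h + 1) * (m : ℝ) ^ 2 / (2 ^ (h + 1) - 1) ≤ x := by
    rw [div_le_iff₀ h3]
    linarith
  have h5 : (2 + 1 / (2 ^ (h + 1) - 1)) * (m : ℝ) ^ 2 =
      (m : ℝ) ^ 2 + 2 ^ (h + 1) * (m : ℝ) ^ 2 / (2 ^ (h + 1) - 1) := by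
    field_simp
    ring
  rw [h5]
  linarith

theorem err_small {ε : ℝ} (hε : 0 < ε) : ∃ m₀ : ℕ, ∃ p : ℕ, ∀ m : ℕ, m₀ ≤ m →
    err p m ≤ ε * (m : ℝ) ^ 2 := by
  obtain ⟨p, hp⟩ := exists_nat_gt (2 / ε)
  obtain ⟨m₀, hm₀⟩ := exists_nat_gt (2 * (2 * (2 * p + 1) + (2 * p + 1).choose p : ℝ) / ε)
  refine ⟨m₀, p, fun m hm => ?_⟩
  have hm' : (m₀ : ℝ) ≤ m := by exact_mod_cast hm
  unfold err
  have h1 : (m : ℝ) ^ 2 / (p + 1) ≤ ε / 2 * (m : ℝ) ^ 2 := by
    rw [div_le_iff₀ (by positivity)]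
    have h2 : 2 < ε * p := by
      rw [div_lt_iff₀ hε] at hp
      linarith
    have h3 : (0 : ℝ) ≤ (m : ℝ) ^ 2 := by positivity
    nlinarith
  have h2 : (2 * (2 * (p : ℝ) + 1) + (2 * p + 1).choose p) * m ≤ ε / 2 * (m : ℝ) ^ 2 := by
    have h3 : 2 * (2 * (2 * (p : ℝ) + 1) + (2 * p + 1).choose p) ≤ ε * m := by
      rw [div_lt_iff₀ hε] at hm₀
      have h4 : ε * (m₀ : ℝ) ≤ ε * m := mul_le_mul_of_nonneg_left hm' hε.le
      linarith
    have h5 : (0 : ℝ) ≤ m := by positivity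
    nlinarith
  linarith

/-- bilinear algorithms -/
theorem IsApprox.qalg {F : Type*} [Field F] {L : Type*} [Fintype L] {m h : ℕ}
    {U V W : L → Matrix (Fin m) (Fin m) F[X]} (H : IsApprox h U V W) :
    QAlg h (fun l => Sum.elim (fun x => U l x.1 x.2) fun _ => (0 : F[X]))
      (fun l => Sum.elim (fun _ => (0 : F[X])) fun x => V l x.1 x.2)
      (fun l x => W l x.1 x.2) := by
  obtain ⟨R, hR⟩ := H.exists_error
  refine ⟨fun a x z => match x, z with
    | .inl b, .inr c => R b.1 b.2 c.1 c.2 a.1 a.2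
    | .inr c, .inl b => R b.1 b.2 c.1 c.2 a.1 a.2
    | .inl _, .inl _ => 0
    | .inr _, .inr _ => 0, fun a x z => ?_⟩
  have key : ∀ b c : Fin m × Fin m, ∑ l, U l b.1 b.2 * V l c.1 c.2 * W l a.1 a.2 =
      X ^ h * (if b.2 = c.1 ∧ b.1 = a.1 ∧ c.2 = a.2 then 1 else 0) +
        X ^ (h + 1) * R b.1 b.2 c.1 c.2 a.1 a.2 := by
    intro b c
    rw [hR]
    congr 2
    refine if_congr ?_ rfl rfl
    tauto
  rcases x with b | b <;> rcases z with c | c
  · simp [sc]
  · simp only [Sum.elim_inl, Sum.elim_inr, sc, mul_zero, add_zero]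
    exact key b c
  · simp only [Sum.elim_inl, Sum.elim_inr, sc, mul_zero, zero_add]
    rw [← key c b]
    exact sum_congr rfl fun l _ => by ring
  · simp [sc]

end Pool.Agent.K9h26.AH
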