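import Mathlib

set_option autoImplicit false

/-!
# Triangles in staircase shapes

A staircase shape inside the unit square which misses an area `δ ≤ 1/4` contains a right triangle
at the origin with legs `a`, `b ≤ 1` such that `a * b ≥ 1 - δ`.
-/

namespace Pool.Agent.K9h26.AH

open Finset

/-- number of rows of length at least `k` -/
def cnt {m : ℕ} (lam : Fin m → ℕ) (k : ℕ) : ℕ := (univ.filter fun i => k ≤ lam i).card

theorem cnt_le {m : ℕ} (lam : Fin m → ℕ) (k : ℕ) : cnt lam k ≤ m := by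
  unfold cnt
  refine (card_filter_le _ _).trans ?_
  rw [card_univ, Fintype.card_fin]

theorem cnt_anti {m : ℕ} (lam : Fin m → ℕ) {k₁ k₂ : ℕ} (h : k₁ ≤ k₂) : cnt lam k₂ ≤ cnt lam k₁ := by
  unfold cnt
  refine card_le_card fun i hi => ?_
  rw [mem_filter] at hi ⊢
  exact ⟨hi.1, h.trans hi.2⟩

theorem missing {m : ℕ} (lam : Fin m → ℕ) (hlam : ∀ i, lam i ≤ m) {k₁ k₂ : ℕ} (h12 : k₁ ≤ k₂)
    (h2 : k₂ ≤ m) :
    ((m : ℝ) - k₁) * (m - cnt lam k₁) + (m - k₂) * (cnt lam k₁ - cnt lam k₂) ≤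
      (m : ℝ) ^ 2 - ((∑ i, lam i : ℕ) : ℝ) := by
  have h3 : ∀ k, (cnt lam k : ℝ) = ∑ i, if k ≤ lam i then (1 : ℝ) else 0 := by
    intro k
    unfold cnt
    rw [Finset.sum_boole]
  have h4 : (m : ℝ) ^ 2 - ((∑ i, lam i : ℕ) : ℝ) = ∑ i : Fin m, ((m : ℝ) - lam i) := by
    rw [sum_sub_distrib, sum_const, card_univ, Fintype.card_fin, nsmul_eq_mul]
    push_cast
    ring
  have h5 : (m : ℝ) = ∑ _i : Fin m, (1 : ℝ) := by simp
  have h6 : ((m : ℝ) - k₁) * (m - cnt lam k₁) + (m - k₂) * (cnt lam k₁ - cnt lam k₂) =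
      ∑ i : Fin m, (((m : ℝ) - k₁) * (1 - if k₁ ≤ lam i then (1 : ℝ) else 0) +
        (m - k₂) * ((if k₁ ≤ lam i then (1 : ℝ) else 0) - if k₂ ≤ lam i then (1 : ℝ) else 0)) := by
    rw [sum_add_distrib, ← mul_sum, ← mul_sum, sum_sub_distrib, sum_sub_distrib, ← h3, ← h3, ← h5]
  rw [h4, h6]
  refine sum_le_sum fun i _ => ?_
  have h7 : (lam i : ℝ) ≤ m := by exact_mod_cast hlam i
  have h8 : (k₂ : ℝ) ≤ m := by exact_mod_cast h2
  have h9 : (k₁ : ℝ) ≤ k₂ := by exact_mod_cast h12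
  by_cases hb : k₁ ≤ lam i
  · by_cases hc : k₂ ≤ lam i
    · rw [if_pos hb, if_pos hc]
      linarith
    · rw [if_pos hb, if_neg hc]
      have h10 : (lam i : ℝ) ≤ k₂ := by
        have : lam i ≤ k₂ := by omega
        exact_mod_cast this
      linarith
  · have hc : ¬ k₂ ≤ lam i := by omega
    rw [if_neg hb, if_neg hc]
    have h10 : (lam i : ℝ) ≤ k₁ := by
      have : lam i ≤ k₁ := by omega
      exact_mod_cast this
    linarith

/-- the analytic inequality -/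
theorem ineq {A B x n δ : ℝ} (hx : 0 ≤ x) (hxA : x ≤ A) (hA : A ≤ 1 / 2) (hn : 0 ≤ n)
    (hnB : n ≤ B) (hB : B ≤ 1 / 2) (h : A * (1 - x) + B * (1 - n) - A * B ≤ δ)
    (h1 : A * (1 - x) ≤ 1 / 4) (h2 : B * (1 - n) ≤ 1 / 4) :
    1 - δ ≤ (1 - A) / (1 - x) * ((1 - B) / (1 - n)) := by
  have hX : 0 < 1 - x := by linarith
  have hY : 0 < 1 - n := by linarith
  have h3 : 1 / 4 ≤ (1 - A) * (1 - B) := by nlinarith
  have hXY : (1 - x) * (1 - n) ≤ 1 := by nlinarith
  have h4 : A * (1 - x) * (1 - n) ≤ (1 - A) * (1 - B) := by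
    have h5 : A * (1 - x) * (1 - n) ≤ A * (1 - x) * 1 :=
      mul_le_mul_of_nonneg_left (by linarith) (mul_nonneg (by linarith) hX.le)
    linarith
  have h5 : x * (A * (1 - x) * (1 - n)) ≤ x * ((1 - A) * (1 - B)) :=
    mul_le_mul_of_nonneg_left h4 hx
  have h6 : n * (1 - x) * (B * (1 - n)) ≤ n * (1 - x) * ((1 - A) * (1 - B)) :=
    mul_le_mul_of_nonneg_left (h2.trans h3) (mul_nonneg hn hX.le)
  rw [div_mul_div_comm, le_div_iff₀ (mul_pos hX hY)]
  have h7 : 1 - δ ≤ (1 - A) * (1 - B) + A * x + B * n := by nlinarith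
  have h8 : (1 - δ) * ((1 - x) * (1 - n)) ≤
      ((1 - A) * (1 - B) + A * x + B * n) * ((1 - x) * (1 - n)) :=
    mul_le_mul_of_nonneg_right h7 (mul_pos hX hY).le
  nlinarith

theorem exists_max0 {ι : Type*} (S : Finset ι) (g : ι → ℝ) :
    ∃ α : ℝ, 0 ≤ α ∧ (∀ k ∈ S, g k ≤ α) ∧ (α = 0 ∨ ∃ k ∈ S, g k = α) := by
  rcases S.eq_empty_or_nonempty with rfl | hS
  · exact ⟨0, le_rfl, fun k hk => absurd hk (notMem_empty k), Or.inl rfl⟩
  · obtain ⟨k, hk, hmax⟩ := S.exists_max_image g hS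
    rcases le_or_gt 0 (g k) with h | h
    · exact ⟨g k, h, hmax, Or.inr ⟨k, hk, rfl⟩⟩
    · exact ⟨0, le_rfl, fun k' hk' => (hmax k' hk').trans h.le, Or.inl rfl⟩

/-- **The geometric lemma.** -/
theorem exists_triangle {m : ℕ} (hm : 0 < m) (N : ℕ → ℝ) {δ : ℝ} (hδ : δ ≤ 1 / 4)
    (hN0 : ∀ k, 0 ≤ N k) (hN1 : ∀ k, N k ≤ m)
    (hmiss : ∀ k₁ k₂, k₁ ≤ k₂ → k₂ ≤ m →
      ((m : ℝ) - k₁) * (m - N k₁) + (m - k₂) * (N k₁ - N k₂) ≤ δ * (m : ℝ) ^ 2) :
    ∃ a b : ℝ, 1 / 2 ≤ a ∧ a ≤ 1 ∧ 1 / 2 ≤ b ∧ b ≤ 1 ∧ 1 - δ ≤ a * b ∧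
      ∀ k, 1 ≤ k → k ≤ m → m * a * b ≤ N k * b + a * k := by
  have hM : (0 : ℝ) < m := by exact_mod_cast hm
  -- normalisation
  set x : ℕ → ℝ := fun k => k / m with hx
  set y : ℕ → ℝ := fun k => N k / m with hy
  have hkx : ∀ k : ℕ, (k : ℝ) = m * x k := by
    intro k
    rw [hx]
    field_simp
  have hNy : ∀ k, N k = m * y k := by
    intro k
    rw [hy]
    field_simp
  have hx0 : ∀ k, 0 ≤ x k := fun k => by positivity
  have hy0 : ∀ k, 0 ≤ y k := fun k => div_nonneg (hN0 k) hM.le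
  have hy1 : ∀ k, y k ≤ 1 := fun k => by
    rw [hy]
    simp only
    rw [div_le_one hM]
    exact hN1 k
  have hx1 : ∀ k, k ≤ m → x k ≤ 1 := fun k hk => by
    rw [hx]
    simp only
    rw [div_le_one hM]
    exact_mod_cast hk
  have hmiss' : ∀ k₁ k₂, k₁ ≤ k₂ → k₂ ≤ m →
      (1 - x k₁) * (1 - y k₁) + (1 - x k₂) * (y k₁ - y k₂) ≤ δ := by
    intro k₁ k₂ h1 h2
    have h3 := hmiss k₁ k₂ h1 h2
    rw [hkx k₁, hkx k₂, hNy k₁, hNy k₂] at h3
    have h4 : ((1 - x k₁) * (1 - y k₁) + (1 - x k₂) * (y k₁ - y k₂)) * (m : ℝ) ^ 2 ≤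
        δ * (m : ℝ) ^ 2 := by
      refine le_trans (le_of_eq ?_) h3
      ring
    exact le_of_mul_le_mul_right h4 (by positivity)
  have hδ0 : 0 ≤ δ := by
    have h3 := hmiss' m m le_rfl le_rfl
    have h4 : x m = 1 := by
      rw [hx]
      exact div_self hM.ne'
    rw [h4] at h3
    linarith
  set S₁ := (Finset.Icc 1 m).filter fun k => 2 * k ≤ m with hS₁
  set S₂ := (Finset.Icc 1 m).filter fun k => m < 2 * k with hS₂
  obtain ⟨α, hα0, hαmax, hα⟩ := exists_max0 S₁ fun k => (1 - x k - y k) / (1 - x k)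
  obtain ⟨β, hβ0, hβmax, hβ⟩ := exists_max0 S₂ fun k => (1 - x k - y k) / (1 - y k)
  -- the data of the first corner
  have hcA : ∃ A x' : ℝ, 0 ≤ x' ∧ x' ≤ A ∧ A ≤ 1 / 2 ∧ A * (1 - x') ≤ δ ∧
      1 - α = (1 - A) / (1 - x') ∧ (α = 0 ∧ A = 0 ∧ x' = 0 ∨
        ∃ k ∈ S₁, A = 1 - y k ∧ x' = x k) := by
    rcases eq_or_ne α 0 with h0 | h0
    · refine ⟨0, 0, le_rfl, le_rfl, by norm_num, by linarith, by rw [h0]; norm_num,
        Or.inl ⟨h0, rfl, rfl⟩⟩
    · rcases hα with h | ⟨k, hk, hgk⟩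
      · exact absurd h h0
      · have hk' := hk
        rw [hS₁, mem_filter, Finset.mem_Icc] at hk'
        have hk2 : x k ≤ 1 / 2 := by
          rw [hx]
          simp only
          rw [div_le_iff₀ hM]
          have : (2 * k : ℝ) ≤ m := by exact_mod_cast hk'.2
          linarith
        have hpos : 0 < 1 - x k := by linarith
        have hαpos : 0 < α := lt_of_le_of_ne hα0 (Ne.symm h0)
        have h1 : 1 - x k - y k = α * (1 - x k) := by
          rw [← hgk]
          field_simp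
        have h2 : 0 < 1 - x k - y k := by
          rw [h1]
          positivity
        have h3 := hmiss' k k le_rfl hk'.1.2
        have h4 : (1 - y k) * (1 - x k) ≤ δ := by linarith
        refine ⟨1 - y k, x k, hx0 k, by linarith, ?_, h4, ?_, Or.inr ⟨k, hk, rfl, rfl⟩⟩
        · have h5 : (1 - y k) * (1 / 2) ≤ (1 - y k) * (1 - x k) :=
            mul_le_mul_of_nonneg_left (by linarith) (by linarith [hy1 k])
          linarith
        · rw [eq_div_iff hpos.ne']
          linarith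
  have hcB : ∃ B n : ℝ, 0 ≤ n ∧ n ≤ B ∧ B ≤ 1 / 2 ∧ B * (1 - n) ≤ δ ∧
      1 - β = (1 - B) / (1 - n) ∧ (β = 0 ∧ B = 0 ∧ n = 0 ∨
        ∃ k ∈ S₂, B = 1 - x k ∧ n = y k) := by
    rcases eq_or_ne β 0 with h0 | h0
    · refine ⟨0, 0, le_rfl, le_rfl, by norm_num, by linarith, by rw [h0]; norm_num,
        Or.inl ⟨h0, rfl, rfl⟩⟩
    · rcases hβ with h | ⟨k, hk, hgk⟩
      · exact absurd h h0
      · have hk' := hk
        rw [hS₂, mem_filter, Finset.mem_Icc] at hk'
        have hk2 : 1 / 2 ≤ x k := by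
          rw [hx]
          simp only
          rw [le_div_iff₀ hM]
          have : (m : ℝ) < 2 * k := by exact_mod_cast hk'.2
          linarith
        have hβpos : 0 < β := lt_of_le_of_ne hβ0 (Ne.symm h0)
        have hpos : 0 < 1 - y k := by
          rcases eq_or_lt_of_le (hy1 k) with h | h
          · exfalso
            rw [h, sub_self, div_zero] at hgk
            exact h0 hgk.symm
          · linarith
        have h1 : 1 - x k - y k = β * (1 - y k) := by
          rw [← hgk]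
          field_simp
        have h2 : 0 < 1 - x k - y k := by
          rw [h1]
          positivity
        have h3 := hmiss' k k le_rfl hk'.1.2
        have h4 : (1 - x k) * (1 - y k) ≤ δ := by linarith
        refine ⟨1 - x k, y k, hy0 k, by linarith, by linarith, h4, ?_,
          Or.inr ⟨k, hk, rfl, rfl⟩⟩
        rw [eq_div_iff hpos.ne']
        linarith
  obtain ⟨A, x', hx'0, hx'A, hA, hAδ, hαA, hkA⟩ := hcA
  obtain ⟨B, n, hn0, hnB, hB, hBδ, hβB, hkB⟩ := hcB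
  have hab : A * (1 - x') + B * (1 - n) - A * B ≤ δ := by
    rcases hkA with ⟨_, h1, h2⟩ | ⟨k₁, hk₁, h1, h2⟩
    · rw [h1, zero_mul, zero_mul]
      linarith
    · rcases hkB with ⟨_, h3, h4⟩ | ⟨k₂, hk₂, h3, h4⟩
      · rw [h3, zero_mul, mul_zero]
        linarith
      · rw [hS₁, mem_filter, Finset.mem_Icc] at hk₁
        rw [hS₂, mem_filter, Finset.mem_Icc] at hk₂
        have h5 := hmiss' k₁ k₂ (by omega) hk₂.1.2
        rw [h1, h2, h3, h4]
        linarith
  have hX : 0 < 1 - x' := by linarith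
  have hY : 0 < 1 - n := by linarith
  refine ⟨1 - α, 1 - β, ?_, by linarith, ?_, by linarith, ?_, ?_⟩
  · rw [hαA, le_div_iff₀ hX]
    linarith
  · rw [hβB, le_div_iff₀ hY]
    linarith
  · rw [hαA, hβB]
    exact ineq hx'0 hx'A hA hn0 hnB hB hab (by linarith) (by linarith)
  · intro k hk1 hk2
    have ha : 0 ≤ 1 - α := by
      rw [hαA]
      exact div_nonneg (by linarith) hX.le
    have hb : 0 ≤ 1 - β := by
      rw [hβB]
      exact div_nonneg (by linarith) hY.le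
    have key : (1 - α) * (1 - β) ≤ y k * (1 - β) + (1 - α) * x k := by
      rcases Nat.lt_or_ge m (2 * k) with h | h
      · have hkS : k ∈ S₂ := by
          rw [hS₂, mem_filter, Finset.mem_Icc]
          exact ⟨⟨hk1, hk2⟩, h⟩
        have h1 := hβmax k hkS
        have h2 : (1 - β) * (1 - y k) ≤ x k := by
          rcases eq_or_lt_of_le (hy1 k) with h3 | h3
          · rw [h3, sub_self, mul_zero]
            exact hx0 k
          · rw [div_le_iff₀ (by linarith)] at h1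
            linarith
        have h4 := mul_le_mul_of_nonneg_left h2 ha
        have h5 : 0 ≤ y k * (1 - β) * α := mul_nonneg (mul_nonneg (hy0 k) hb) hα0
        nlinarith
      · have hkS : k ∈ S₁ := by
          rw [hS₁, mem_filter, Finset.mem_Icc]
          exact ⟨⟨hk1, hk2⟩, h⟩
        have h1 := hαmax k hkS
        have hk2' : x k ≤ 1 / 2 := by
          rw [hx]
          simp only
          rw [div_le_iff₀ hM]
          have : (2 * k : ℝ) ≤ m := by exact_mod_cast h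
          linarith
        have h2 : (1 - α) * (1 - x k) ≤ y k := by
          rw [div_le_iff₀ (by linarith)] at h1
          linarith
        have h4 := mul_le_mul_of_nonneg_right h2 hb
        have h5 : 0 ≤ x k * (1 - α) * β := mul_nonneg (mul_nonneg (hx0 k) ha) hβ0
        nlinarith
    rw [hNy k, hkx k]
    have h6 := mul_le_mul_of_nonneg_left key hM.le
    nlinarith

end Pool.Agent.K9h26.AH
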