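import Pool.Agent.K9h26.AH.CoreR
import Pool.Agent.K9h26.AH.Geo

set_option autoImplicit false
set_option linter.unusedSectionVars false

/-!
# The lower bound for approximate bilinear algorithms of given error degree
-/

namespace Pool.Agent.K9h26.AH

open Finset Polynomial Pool.Agent.H88R3.MM

/-- the error term for bilinear algorithms -/
noncomputable def errR (p m : ℕ) : ℝ :=
  3 * (m : ℝ) ^ 2 / p + (4 * p + 2 * 4 ^ p) * m

theorem blocks {m d' C p : ℕ} {lam : Fin m → ℕ} (hp : 2 ≤ p) (hpm : p ≤ m)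
    (hcore : ∀ ρ γ q : ℕ, (∀ k, 1 ≤ k → k ≤ q →
        (q - k + 1) * (ρ + 1) ≤ (univ.filter fun i => k * (γ + 1) ≤ lam i).card) →
      m ^ 2 + (ρ + γ + 1) * m * q ≤ C + d' + q * ((ρ + γ + 1) * (ρ + γ).choose ρ))
    {a b : ℝ} (ha : 1 / 2 ≤ a) (ha1 : a ≤ 1) (hb : 1 / 2 ≤ b) (hb1 : b ≤ 1)
    (htri : ∀ k, 1 ≤ k → k ≤ m → (m : ℝ) * a * b ≤ cnt lam k * b + a * k) :
    (1 + (a + b)) * (m : ℝ) ^ 2 ≤ C + d' + errR p m := by
  have hpR : (2 : ℝ) ≤ p := by exact_mod_cast hp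
  have hp0 : (0 : ℝ) < p := by linarith
  have hmR : (0 : ℝ) ≤ m := by positivity
  have hr1 : 1 ≤ ⌊(p : ℝ) * a⌋₊ := by
    rw [Nat.one_le_floor_iff]
    nlinarith
  have hc1 : 1 ≤ ⌊(p : ℝ) * b⌋₊ := by
    rw [Nat.one_le_floor_iff]
    nlinarith
  obtain ⟨ρ, hρ⟩ : ∃ ρ, ⌊(p : ℝ) * a⌋₊ = ρ + 1 := ⟨⌊(p : ℝ) * a⌋₊ - 1, by omega⟩
  obtain ⟨γ, hγ⟩ : ∃ γ, ⌊(p : ℝ) * b⌋₊ = γ + 1 := ⟨⌊(p : ℝ) * b⌋₊ - 1, by omega⟩
  have hρ1 : (ρ : ℝ) + 1 ≤ p * a := by
    have h1 := Nat.floor_le (show (0 : ℝ) ≤ p * a by positivity)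
    rw [hρ] at h1
    push_cast at h1
    exact h1
  have hρ2 : (p : ℝ) * a < ρ + 2 := by
    have h1 := Nat.lt_floor_add_one ((p : ℝ) * a)
    rw [hρ] at h1
    push_cast at h1
    linarith
  have hγ1 : (γ : ℝ) + 1 ≤ p * b := by
    have h1 := Nat.floor_le (show (0 : ℝ) ≤ p * b by positivity)
    rw [hγ] at h1
    push_cast at h1
    exact h1
  have hγ2 : (p : ℝ) * b < γ + 2 := by
    have h1 := Nat.lt_floor_add_one ((p : ℝ) * b)
    rw [hγ] at h1
    push_cast at h1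
    linarith
  have hρp : ρ + 1 ≤ p := by
    have h1 : (ρ : ℝ) + 1 ≤ p := by nlinarith
    exact_mod_cast h1
  have hγp : γ + 1 ≤ p := by
    have h1 : (γ : ℝ) + 1 ≤ p := by nlinarith
    exact_mod_cast h1
  set q := m / p - 1 with hq
  have h2 : 1 ≤ m / p := (Nat.one_le_div_iff (by omega)).2 hpm
  have h3 : q + 1 = m / p := by omega
  have h4 : (q + 1) * p ≤ m := by
    rw [h3]
    exact Nat.div_mul_le_self _ _
  have h5 : m < (q + 2) * p := by
    have h8 := Nat.lt_mul_div_succ m (show 0 < p by omega)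
    rw [← h3] at h8
    calc m < p * (q + 1 + 1) := h8
      _ = _ := by ring
  have h4R : ((q : ℝ) + 1) * p ≤ m := by exact_mod_cast h4
  have h5R : (m : ℝ) ≤ (q + 2) * p := by exact_mod_cast h5.le
  have hcond : ∀ k, 1 ≤ k → k ≤ q →
      (q - k + 1) * (ρ + 1) ≤ (univ.filter fun i => k * (γ + 1) ≤ lam i).card := by
    intro k hk1 hkq
    have hK1 : 1 ≤ k * (γ + 1) := Nat.mul_pos hk1 (Nat.succ_pos γ)
    have hK2 : k * (γ + 1) ≤ m := by
      calc k * (γ + 1) ≤ q * p := Nat.mul_le_mul hkq hγp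
        _ ≤ (q + 1) * p := Nat.mul_le_mul_right _ (Nat.le_succ q)
        _ ≤ m := h4
    have h6 := htri (k * (γ + 1)) hK1 hK2
    have h7 : ((k * (γ + 1) : ℕ) : ℝ) ≤ k * (p * b) := by
      push_cast
      exact mul_le_mul_of_nonneg_left hγ1 (by positivity)
    have hb0 : 0 < b := by linarith
    have ha0 : 0 < a := by linarith
    have h8 : (m : ℝ) * a ≤ cnt lam (k * (γ + 1)) + a * (k * p) := by
      have h9 : (m : ℝ) * a * b ≤ (cnt lam (k * (γ + 1)) + a * (k * p)) * b := by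
        have h10 := mul_le_mul_of_nonneg_left h7 ha0.le
        linarith
      exact le_of_mul_le_mul_right h9 hb0
    have hkqR : (k : ℝ) ≤ q := by exact_mod_cast hkq
    have h11 : ((q : ℝ) - k + 1) * (ρ + 1) ≤ cnt lam (k * (γ + 1)) := by
      have h12 : ((q : ℝ) - k + 1) * (ρ + 1) ≤ (q - k + 1) * (p * a) :=
        mul_le_mul_of_nonneg_left hρ1 (by linarith)
      have h13 := mul_le_mul_of_nonneg_right h4R ha0.le
      linarith
    have h14 : (((q - k + 1) * (ρ + 1) : ℕ) : ℝ) ≤ ((cnt lam (k * (γ + 1)) : ℕ) : ℝ) := by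
      rw [Nat.cast_mul, Nat.cast_add, Nat.cast_sub hkq]
      push_cast
      exact h11
    exact_mod_cast h14
  have hmain := hcore ρ γ q hcond
  have hmainR : (m : ℝ) ^ 2 + (ρ + γ + 1) * m * q ≤
      C + d' + q * ((ρ + γ + 1) * (ρ + γ).choose ρ) := by exact_mod_cast hmain
  have hch : ((ρ + γ).choose ρ : ℝ) ≤ 4 ^ p := by
    have h6 : (ρ + γ).choose ρ ≤ 4 ^ p := by
      calc (ρ + γ).choose ρ ≤ 2 ^ (ρ + γ) := Nat.choose_le_two_pow _ _
        _ ≤ 2 ^ (2 * p) := Nat.pow_le_pow_right (by norm_num) (by omega)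
        _ = 4 ^ p := by rw [pow_mul]; norm_num
    exact_mod_cast h6
  have hs2 : (ρ : ℝ) + γ + 1 ≤ 2 * p := by
    have h6 : ρ + γ + 1 ≤ 2 * p := by omega
    exact_mod_cast h6
  have hs1 : (p : ℝ) * (a + b) - 3 ≤ ρ + γ + 1 := by linarith
  have hs0 : (0 : ℝ) ≤ ρ + γ + 1 := by positivity
  have hq0 : (0 : ℝ) ≤ q := by positivity
  have herr : (q : ℝ) * ((ρ + γ + 1) * (ρ + γ).choose ρ) ≤ 2 * 4 ^ p * m := by
    have h6 : (q : ℝ) * (ρ + γ + 1) ≤ 2 * m := by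
      calc (q : ℝ) * (ρ + γ + 1) ≤ q * (2 * p) := mul_le_mul_of_nonneg_left hs2 hq0
        _ = 2 * (q * p) := by ring
        _ ≤ 2 * m := by nlinarith
    calc (q : ℝ) * ((ρ + γ + 1) * (ρ + γ).choose ρ) =
        (q * (ρ + γ + 1)) * (ρ + γ).choose ρ := by ring
      _ ≤ (2 * m) * 4 ^ p := mul_le_mul h6 hch (by positivity) (by positivity)
      _ = _ := by ring
  have hgain : (a + b) * m - 3 * m / p - 4 * p ≤ (ρ + γ + 1) * q := by
    have h6 : ((a + b) * m - 3 * m / p - 4 * p) * p ≤ (ρ + γ + 1) * q * p := by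
      have h7 : ((a + b) * m - 3 * m / p - 4 * p) * p = (p * (a + b) - 3) * m - 4 * p * p := by
        field_simp
      rw [h7]
      have h8 : (p * (a + b) - 3) * m ≤ (ρ + γ + 1) * (m : ℝ) :=
        mul_le_mul_of_nonneg_right hs1 hmR
      have h9 : ((ρ : ℝ) + γ + 1) * m ≤ (ρ + γ + 1) * ((q + 2) * p) :=
        mul_le_mul_of_nonneg_left h5R hs0
      have h10 : ((ρ : ℝ) + γ + 1) * (2 * p) ≤ 2 * p * (2 * p) :=
        mul_le_mul_of_nonneg_right hs2 (by positivity)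
      linarith
    exact le_of_mul_le_mul_right h6 hp0
  have hgain' := mul_le_mul_of_nonneg_right hgain hmR
  unfold errR
  have h6 : 3 * (m : ℝ) ^ 2 / p = 3 * m / p * m := by ring
  rw [h6]
  linarith

/-- the recursion -/
theorem rec_bound {h : ℕ} (δ : ℕ → ℝ) {ε : ℝ} (h0 : δ 0 = 0) (hn : δ (h + 1) = 1)
    (hpos : ∀ j, 0 ≤ δ j) (hlin : ∀ j, δ j ≤ 1 / 2 → δ (j + 1) ≤ ε + 2 * δ j)
    (hquad : ∀ j, δ j ≤ 1 / 4 → ∃ a b : ℝ, 0 ≤ a ∧ 0 ≤ b ∧ 1 - δ j ≤ a * b ∧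
      δ (j + 1) ≤ ε + 2 - (a + b)) : 1 / ((h : ℝ) + 1) ^ 2 ≤ ε := by
  by_contra hcon
  push Not at hcon
  rw [lt_div_iff₀ (by positivity)] at hcon
  have h1 : δ 1 ≤ ε := by
    have h2 := hlin 0 (by rw [h0]; norm_num)
    rw [h0] at h2
    simpa using h2
  have hε : 0 ≤ ε := (hpos 1).trans h1
  have key : ∀ j : ℕ, j + 1 ≤ h → δ (j + 1) ≤ (2 * j + 1) * ε := by
    intro j
    induction j with
    | zero =>
      intro _
      simpa using h1
    | succ j ih =>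
      intro hj
      have h2 := ih (by omega)
      have hjR : (j : ℝ) + 2 ≤ h := by exact_mod_cast hj
      have hj0 : (0 : ℝ) ≤ j := by positivity
      have h3 : δ (j + 1) ≤ 1 / 4 := by
        -- `(2 j + 1) ≤ (h + 1)^2 / 4`
        have h4 : (2 * (j : ℝ) + 1) * 4 ≤ ((h : ℝ) + 1) ^ 2 := by nlinarith [sq_nonneg ((h : ℝ) - 3)]
        have h5 : (2 * (j : ℝ) + 1) * 4 * ε ≤ ((h : ℝ) + 1) ^ 2 * ε :=
          mul_le_mul_of_nonneg_right h4 hε
        linarith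
      obtain ⟨a, b, ha, hb, hab, hd⟩ := hquad (j + 1) h3
      have h4 : ((2 : ℝ) - (2 * j + 1) * ε - ε) ^ 2 ≤ (a + b) ^ 2 := by
        have h5 : ((j : ℝ) + 1) ^ 2 * ε ≤ 1 := by
          have h6 : ((j : ℝ) + 1) ^ 2 ≤ ((h : ℝ) + 1) ^ 2 := by
            apply pow_le_pow_left₀ (by positivity)
            linarith
          have h7 := mul_le_mul_of_nonneg_right h6 hε
          linarith
        have h6 : ((j : ℝ) + 1) ^ 2 * ε * ε ≤ 1 * ε := mul_le_mul_of_nonneg_right h5 hε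
        nlinarith [sq_nonneg (a - b)]
      have h5 : (2 : ℝ) - (2 * j + 1) * ε - ε ≤ a + b :=
        le_trans (le_abs_self _) (abs_le_of_sq_le_sq h4 (by linarith))
      push_cast
      linarith
  rcases Nat.eq_zero_or_pos h with h2 | h2
  · rw [h2] at hn hcon
    rw [zero_add] at hn
    rw [hn] at h1
    simp only [CharP.cast_eq_zero, zero_add, one_pow, mul_one] at hcon
    linarith
  · obtain ⟨j, rfl⟩ : ∃ j, h = j + 1 := ⟨h - 1, by omega⟩
    have h3 := key j le_rfl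
    have hj0 : (0 : ℝ) ≤ j := by positivity
    have h4 : δ (j + 1) ≤ 1 / 2 := by
      push_cast at hcon
      have h5 : (2 * (j : ℝ) + 1) * 2 ≤ ((j : ℝ) + 1 + 1) ^ 2 := by nlinarith [sq_nonneg (j : ℝ)]
      have h6 : (2 * (j : ℝ) + 1) * 2 * ε ≤ ((j : ℝ) + 1 + 1) ^ 2 * ε :=
        mul_le_mul_of_nonneg_right h5 hε
      linarith
    have h5 := hlin (j + 1) h4
    rw [hn] at h5
    have h6 : (1 : ℝ) ≤ (4 * j + 3) * ε := by linarith
    push_cast at hcon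
    have h7 : (4 * (j : ℝ) + 3) ≤ ((j : ℝ) + 1 + 1) ^ 2 := by nlinarith [sq_nonneg (j : ℝ)]
    have h8 : (4 * (j : ℝ) + 3) * ε ≤ ((j : ℝ) + 1 + 1) ^ 2 * ε :=
      mul_le_mul_of_nonneg_right h7 hε
    linarith

/-- the explicit lower bound for approximate bilinear algorithms -/
theorem Alg.boundR {F : Type*} [Field F] {L : Type*} [Fintype L] {m h : ℕ}
    {U V W : L → Matrix (Fin m) (Fin m) F[X]} (H : Alg h U V W) {p : ℕ} (hp : 2 ≤ p)
    (hpm : p ≤ m) : (2 + 1 / ((h : ℝ) + 1) ^ 2) * (m : ℝ) ^ 2 ≤ Fintype.card L + errR p m := by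
  have H' := H.map (algebraMap F (AlgebraicClosure F))
  set W' : L → Matrix (Fin m) (Fin m) (AlgebraicClosure F)[X] := fun l =>
    (W l).map (Polynomial.map (algebraMap F (AlgebraicClosure F))) with hW'
  have hm : 0 < m := by omega
  have hmR : (0 : ℝ) < m := by exact_mod_cast hm
  have hm2 : (0 : ℝ) < (m : ℝ) ^ 2 := by positivity
  set d : ℕ → ℕ := fun j => Module.finrank (AlgebraicClosure F) (VV (wf W') j) with hd
  have hdle : ∀ j, d j ≤ m ^ 2 := by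
    intro j
    have h1 := Submodule.finrank_le (VV (wf W') j)
    rw [Module.finrank_fintype_fun_eq_card, Fintype.card_prod, Fintype.card_fin] at h1
    rw [sq]
    exact h1
  have hd0 : d 0 = m ^ 2 := by
    rw [hd]
    simp only
    rw [VV_zero, finrank_top, Module.finrank_fintype_fun_eq_card, Fintype.card_prod,
      Fintype.card_fin, sq]
  have hdh : d (h + 1) = 0 := by
    rw [hd]
    simp only
    rw [H'.VV_eq_bot, finrank_bot]
  set δ : ℕ → ℝ := fun j => 1 - d j / (m : ℝ) ^ 2 with hδ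
  have hdR : ∀ j, (d j : ℝ) = (1 - δ j) * (m : ℝ) ^ 2 := by
    intro j
    rw [hδ]
    field_simp
    ring
  set ε : ℝ := (Fintype.card L + errR p m) / (m : ℝ) ^ 2 - 2 with hε
  have hεR : (Fintype.card L : ℝ) + errR p m = (2 + ε) * (m : ℝ) ^ 2 := by
    rw [hε]
    field_simp
    ring
  -- one step
  have hone : ∀ j, ∃ lam : Fin m → ℕ, (∀ i, lam i ≤ m) ∧
      (∀ k₁ k₂, k₁ ≤ k₂ → k₂ ≤ m →
        ((m : ℝ) - k₁) * (m - cnt lam k₁) + (m - k₂) * (cnt lam k₁ - cnt lam k₂) ≤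
          δ j * (m : ℝ) ^ 2) ∧
      ∀ a b : ℝ, 1 / 2 ≤ a → a ≤ 1 → 1 / 2 ≤ b → b ≤ 1 →
        (∀ k, 1 ≤ k → k ≤ m → (m : ℝ) * a * b ≤ cnt lam k * b + a * k) →
        δ (j + 1) ≤ ε + 2 - (a + b) := by
    intro j
    obtain ⟨lam, hlam, hsum, hcore⟩ := H'.coreR j
    refine ⟨lam, hlam, fun k₁ k₂ h12 h2 => ?_, fun a b ha ha1 hb hb1 htri => ?_⟩
    · have h3 := missing lam hlam h12 h2
      have h4 : ((∑ i, lam i : ℕ) : ℝ) = (d j : ℝ) := by
        rw [hsum]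
      rw [h4, hdR j] at h3
      linarith
    · have h3 := blocks hp hpm hcore ha ha1 hb hb1 htri
      have h4 : ((Module.finrank (AlgebraicClosure F) (VV (wf W') (j + 1)) : ℕ) : ℝ) =
        (d (j + 1) : ℝ) := rfl
      rw [h4, hdR (j + 1)] at h3
      have h5 : (1 + (a + b)) * (m : ℝ) ^ 2 ≤ (2 + ε + (1 - δ (j + 1))) * (m : ℝ) ^ 2 := by
        linarith
      have h6 := le_of_mul_le_mul_right h5 hm2
      linarith
  have hmain : 1 / ((h : ℝ) + 1) ^ 2 ≤ ε := by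
    refine rec_bound δ ?_ ?_ ?_ ?_ ?_
    · have h1 := hdR 0
      rw [hd0] at h1
      push_cast at h1
      have h2 : δ 0 * (m : ℝ) ^ 2 = 0 := by linarith
      rcases mul_eq_zero.1 h2 with h3 | h3
      · exact h3
      · exact absurd h3 hm2.ne'
    · rw [hδ]
      simp only
      rw [hdh]
      simp
    · intro j
      rw [hδ]
      simp only
      rw [sub_nonneg, div_le_one hm2]
      exact_mod_cast hdle j
    · intro j hj
      obtain ⟨lam, hlam, hmiss, hstep⟩ := hone j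
      have hj0 : 0 ≤ δ j := by
        rw [hδ]
        simp only
        rw [sub_nonneg, div_le_one hm2]
        exact_mod_cast hdle j
      have h1 := hstep (1 - δ j) (1 - δ j) (by linarith) (by linarith) (by linarith)
        (by linarith) ?_
      · linarith
      · intro k hk1 hk2
        have h2 := hmiss k k le_rfl hk2
        have h3 : (0 : ℝ) ≤ k * cnt lam k := by positivity
        have h4 : (m : ℝ) * (1 - δ j) * m ≤ (cnt lam k + k) * m := by nlinarith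
        have h5 := le_of_mul_le_mul_right h4 hmR
        have h6 := mul_le_mul_of_nonneg_right h5 (show (0 : ℝ) ≤ 1 - δ j by linarith)
        linarith
    · intro j hj
      obtain ⟨lam, hlam, hmiss, hstep⟩ := hone j
      obtain ⟨a, b, ha, ha1, hb, hb1, hab, htri⟩ := exists_triangle hm
        (fun k => (cnt lam k : ℝ)) hj (fun k => by positivity)
        (fun k => by exact_mod_cast cnt_le lam k) hmiss
      exact ⟨a, b, by linarith, by linarith, hab, hstep a b ha ha1 hb hb1 htri⟩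
  rw [hεR]
  have h1 : (2 + 1 / ((h : ℝ) + 1) ^ 2) ≤ 2 + ε := by linarith
  exact mul_le_mul_of_nonneg_right h1 hm2.le

theorem errR_small {ε : ℝ} (hε : 0 < ε) : ∃ m₀ : ℕ, ∃ p : ℕ, 2 ≤ p ∧ p ≤ m₀ ∧
    ∀ m : ℕ, m₀ ≤ m → errR p m ≤ ε * (m : ℝ) ^ 2 := by
  obtain ⟨p₁, hp₁⟩ := exists_nat_gt (6 / ε)
  set p := p₁ + 2 with hp
  have hpR : 6 / ε < (p : ℝ) := by
    rw [hp]
    push_cast
    linarith
  obtain ⟨m₁, hm₁⟩ := exists_nat_gt (2 * ((4 * p + 2 * 4 ^ p : ℝ)) / ε)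
  refine ⟨m₁ + p, p, by omega, by omega, fun m hm => ?_⟩
  have hm' : (m₁ : ℝ) ≤ m := by
    have : m₁ ≤ m := by omega
    exact_mod_cast this
  have hp0 : (0 : ℝ) < p := by
    rw [hp]
    positivity
  unfold errR
  have h1 : 3 * (m : ℝ) ^ 2 / p ≤ ε / 2 * (m : ℝ) ^ 2 := by
    rw [div_le_iff₀ hp0]
    have h2 : 6 < ε * p := by
      rw [div_lt_iff₀ hε] at hpR
      linarith
    have h3 : (0 : ℝ) ≤ (m : ℝ) ^ 2 := by positivity
    nlinarith
  have h2 : (4 * (p : ℝ) + 2 * 4 ^ p) * m ≤ ε / 2 * (m : ℝ) ^ 2 := by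
    have h3 : 2 * (4 * (p : ℝ) + 2 * 4 ^ p) ≤ ε * m := by
      rw [div_lt_iff₀ hε] at hm₁
      have h4 : ε * (m₁ : ℝ) ≤ ε * m := mul_le_mul_of_nonneg_left hm' hε.le
      linarith
    have h5 : (0 : ℝ) ≤ m := by positivity
    nlinarith
  linarith

/-- coordinates -/
theorem IsApprox.alg {F : Type*} [Field F] {L : Type*} [Fintype L] {m h : ℕ}
    {U V W : L → Matrix (Fin m) (Fin m) F[X]} (H : IsApprox h U V W) : Alg h U V W := by
  obtain ⟨R, hR⟩ := H.exists_error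
  refine ⟨R, fun i j j' k i' k' => ?_⟩
  rw [hR]

end Pool.Agent.K9h26.AH
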