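import Mathlib

set_option autoImplicit false
set_option linter.unusedSectionVars false

/-!
# The filtration which belongs to the output forms of an approximate algorithm
-/

namespace Pool.Agent.K9h26.AH

open Finset Polynomial

variable {F : Type*} [Field F] {ι L : Type*} [Fintype ι] [Fintype L]

/-- the pairing -/
noncomputable def pr (y w : ι → F[X]) : F[X] := ∑ x, y x * w x

theorem pr_add (y y' w : ι → F[X]) : pr (y + y') w = pr y w + pr y' w := by
  unfold pr
  rw [← sum_add_distrib]
  exact sum_congr rfl fun x _ => by rw [Pi.add_apply, add_mul]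

theorem pr_sub (y y' w : ι → F[X]) : pr (y - y') w = pr y w - pr y' w := by
  unfold pr
  rw [← sum_sub_distrib]
  exact sum_congr rfl fun x _ => by rw [Pi.sub_apply, sub_mul]

theorem pr_smul (c : F[X]) (y w : ι → F[X]) : pr (c • y) w = c * pr y w := by
  unfold pr
  rw [mul_sum]
  exact sum_congr rfl fun x _ => by rw [Pi.smul_apply, smul_eq_mul, mul_assoc]

theorem pr_sum {κ : Type*} (s : Finset κ) (y : κ → ι → F[X]) (w : ι → F[X]) :
    pr (∑ g ∈ s, y g) w = ∑ g ∈ s, pr (y g) w := by
  unfold pr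
  rw [sum_comm]
  refine sum_congr rfl fun x _ => ?_
  rw [Finset.sum_apply, sum_mul]

theorem pr_fsmul (c : F) (y w : ι → F[X]) : pr (c • y) w = C c * pr y w := by
  unfold pr
  rw [mul_sum]
  exact sum_congr rfl fun x _ => by rw [Pi.smul_apply, Polynomial.smul_eq_C_mul, mul_assoc]

theorem pr_zero (w : ι → F[X]) : pr (0 : ι → F[X]) w = 0 := by
  unfold pr
  exact sum_eq_zero fun x _ => by rw [Pi.zero_apply, zero_mul]

/-- the elements on which all forms are divisible by `X ^ j` -/
def Y (w : L → ι → F[X]) (j : ℕ) : Submodule F (ι → F[X]) where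
  carrier := {y | ∀ l, X ^ j ∣ pr y (w l)}
  add_mem' := fun {y y'} h h' l => by rw [pr_add]; exact dvd_add (h l) (h' l)
  zero_mem' := fun l => by rw [pr_zero]; exact dvd_zero _
  smul_mem' := fun c {y} h l => by rw [pr_fsmul]; exact (h l).mul_left _

theorem mem_Y {w : L → ι → F[X]} {j : ℕ} {y : ι → F[X]} : y ∈ Y w j ↔ ∀ l, X ^ j ∣ pr y (w l) :=
  Iff.rfl

theorem Y_smul {w : L → ι → F[X]} {j : ℕ} {y : ι → F[X]} (h : y ∈ Y w j) (c : F[X]) :
    c • y ∈ Y w j := fun l => by rw [pr_smul]; exact (h l).mul_left _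

/-- the value at `0` -/
noncomputable def ev : (ι → F[X]) →ₗ[F] (ι → F) where
  toFun y x := (y x).coeff 0
  map_add' y y' := by funext x; rw [Pi.add_apply, Pi.add_apply, coeff_add]
  map_smul' c y := by
    funext x
    rw [Pi.smul_apply, Pi.smul_apply, coeff_smul, RingHom.id_apply]

theorem ev_apply (y : ι → F[X]) (x : ι) : ev y x = (y x).coeff 0 := rfl

/-- the coefficients of `X ^ j` of the forms -/
noncomputable def phi (w : L → ι → F[X]) (j : ℕ) : (ι → F[X]) →ₗ[F] (L → F) where
  toFun y l := (pr y (w l)).coeff j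
  map_add' y y' := by funext l; rw [pr_add, coeff_add]; rfl
  map_smul' c y := by
    funext l
    rw [pr_fsmul, coeff_C_mul, RingHom.id_apply]
    rfl

theorem phi_apply (w : L → ι → F[X]) (j : ℕ) (y : ι → F[X]) (l : L) :
    phi w j y l = (pr y (w l)).coeff j := rfl

/-- the reductions -/
noncomputable def VV (w : L → ι → F[X]) (j : ℕ) : Submodule F (ι → F) := (Y w j).map ev

/-- the codes -/
noncomputable def CC (w : L → ι → F[X]) (j : ℕ) : Submodule F (L → F) := (Y w j).map (phi w j)

theorem dvd_succ {P : F[X]} {j : ℕ} (h : X ^ j ∣ P) (h0 : P.coeff j = 0) : X ^ (j + 1) ∣ P := by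
  rw [X_pow_dvd_iff] at h ⊢
  intro d hd
  rcases Nat.lt_succ_iff_lt_or_eq.1 hd with h' | h'
  · exact h d h'
  · rw [h']
    exact h0

theorem coeff_X_pow_mul_self (P : F[X]) (j : ℕ) : (X ^ j * P).coeff j = P.coeff 0 := by
  rw [coeff_X_pow_mul', if_pos le_rfl, Nat.sub_self]

theorem VV_zero (w : L → ι → F[X]) : VV w 0 = ⊤ := by
  rw [eq_top_iff]
  intro v _
  refine ⟨fun x => C (v x), fun l => ?_, ?_⟩
  · rw [pow_zero]
    exact one_dvd _
  · funext x
    rw [ev_apply, coeff_C_zero]

theorem card_le_zero (w : L → ι → F[X]) :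
    Fintype.card ι ≤ Module.finrank F (CC w 0) + Module.finrank F (VV w 1) := by
  let cst : (ι → F) →ₗ[F] (ι → F[X]) :=
    { toFun := fun v x => C (v x)
      map_add' := fun v v' => by funext x; rw [Pi.add_apply, Pi.add_apply, C_add]
      map_smul' := fun c v => by
        funext x
        rw [Pi.smul_apply, Pi.smul_apply, RingHom.id_apply, smul_eq_mul, C_mul,
          Polynomial.smul_eq_C_mul] }
  have h1 := LinearMap.finrank_range_add_finrank_ker (phi w 0 ∘ₗ cst)
  rw [Module.finrank_fintype_fun_eq_card] at h1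
  rw [← h1]
  refine Nat.add_le_add (Submodule.finrank_mono ?_) (Submodule.finrank_mono ?_)
  · rintro _ ⟨v, rfl⟩
    refine ⟨cst v, fun l => ?_, rfl⟩
    rw [pow_zero]
    exact one_dvd _
  · intro v hv
    refine ⟨cst v, fun l => ?_, ?_⟩
    · refine dvd_succ (by rw [pow_zero]; exact one_dvd _) ?_
      exact congrFun (LinearMap.mem_ker.1 hv) l
    · funext x
      rw [ev_apply]
      exact coeff_C_zero


end Pool.Agent.K9h26.AH
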