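import Pool.Agent.W946.Kos

set_option autoImplicit false

/-!
# The Koszul flattening for rectangular blocks

`kosR s` is the matrix of the wedge product with the `s`-th basis vector from the `ρ`-th to the
`ρ + 1`-st exterior power of a space of dimension `ρ + γ + 1` (up to signs): its columns are indexed
by the `ρ`-element subsets and its rows by the complements, the `γ`-element subsets.
-/

namespace Pool.Agent.K9h26.AH

open Finset Pool.Agent.W946.Kos

/-- the `k`-element subsets of a set of `n` points -/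
abbrev SubR (n k : ℕ) : Type := {S : Finset (Fin n) // S.card = k}

theorem card_SubR (n k : ℕ) : Fintype.card (SubR n k) = n.choose k := by
  rw [Fintype.card_of_subtype (powersetCard k (univ : Finset (Fin n)))]
  · rw [card_powersetCard, card_univ, Fintype.card_fin]
  · intro S
    rw [mem_powersetCard_univ]

/-- the matrix of the wedge product with the `s`-th basis vector -/
def kosR (K : Type*) [Field K] (ρ γ : ℕ) (s : Fin (ρ + γ + 1)) :
    Matrix (SubR (ρ + γ + 1) γ) (SubR (ρ + γ + 1) ρ) K :=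
  Matrix.of fun T S => if s ∉ S.1 ∧ insert s S.1 = T.1ᶜ then eps K s S.1 else 0

variable {K : Type*} [Field K] {ρ γ : ℕ}

theorem kosR_map {K' : Type*} [Field K'] (f : K →+* K') (s : Fin (ρ + γ + 1))
    (T : SubR (ρ + γ + 1) γ) (S : SubR (ρ + γ + 1) ρ) :
    f (kosR K ρ γ s T S) = kosR K' ρ γ s T S := by
  unfold kosR eps
  rw [Matrix.of_apply, Matrix.of_apply]
  split_ifs
  · rw [map_pow, map_neg, map_one]
  · exact map_zero f

/-- a column -/
def colR (w : Fin (ρ + γ + 1) → K) (S : Finset (Fin (ρ + γ + 1))) : SubR (ρ + γ + 1) γ → K :=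
  fun T => ∑ s, if s ∉ S ∧ insert s S = T.1ᶜ then w s * eps K s S else 0

theorem colR_rel (w : Fin (ρ + γ + 1) → K) (R : Finset (Fin (ρ + γ + 1))) :
    ∑ j, (if j ∉ R then (w j * eps K j R) • colR w (insert j R) else 0) = 0 := by
  funext T
  rw [Finset.sum_apply, Pi.zero_apply]
  have e : ∀ j : Fin (ρ + γ + 1),
      (if j ∉ R then (w j * eps K j R) • colR w (insert j R) else 0) T =
      ∑ s, (if j ∉ R ∧ s ∉ insert j R ∧ insert s (insert j R) = T.1ᶜ then
        (w j * eps K j R) * (w s * eps K s (insert j R)) else 0) := by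
    intro j
    by_cases hj : j ∉ R
    · rw [if_pos hj, Pi.smul_apply, smul_eq_mul, colR, mul_sum]
      refine sum_congr rfl fun s _ => ?_
      by_cases hc : s ∉ insert j R ∧ insert s (insert j R) = T.1ᶜ
      · rw [if_pos hc, if_pos ⟨hj, hc⟩]
      · rw [if_neg hc, if_neg (fun h => hc h.2), mul_zero]
    · rw [if_neg hj, Pi.zero_apply]
      exact (sum_eq_zero fun s _ => if_neg (fun h => hj h.1)).symm
  rw [sum_congr rfl fun j _ => e j, ← Finset.sum_product']
  have hsw : ∀ x : Fin (ρ + γ + 1) × Fin (ρ + γ + 1),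
      (x.1 ∉ R ∧ x.2 ∉ insert x.1 R ∧ insert x.2 (insert x.1 R) = T.1ᶜ) →
      (x.2 ∉ R ∧ x.1 ∉ insert x.2 R ∧ insert x.1 (insert x.2 R) = T.1ᶜ) := by
    rintro ⟨j, s⟩ ⟨h1, h2, h3⟩
    simp only [mem_insert, not_or] at h1 h2 h3 ⊢
    refine ⟨h2.2, ⟨fun h => h2.1 h.symm, h1⟩, ?_⟩
    rw [← h3, insert_comm]
  refine Finset.sum_involution (fun x _ => (x.2, x.1)) ?_ ?_ ?_ ?_
  · rintro ⟨j, s⟩ -
    by_cases hc : j ∉ R ∧ s ∉ insert j R ∧ insert s (insert j R) = T.1ᶜ
    · have hc' := hsw (j, s) hc
      simp only at hc' ⊢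
      rw [if_pos hc, if_pos hc', eps_insert hc.1, eps_insert hc'.1]
      have hne : s ≠ j := fun h => hc.2.1 (by rw [h]; exact mem_insert_self _ _)
      rcases lt_or_gt_of_ne hne with h | h
      · rw [if_neg (not_lt.2 h.le), if_pos h]
        ring
      · rw [if_pos h, if_neg (not_lt.2 h.le)]
        ring
    · have hc' : ¬ (s ∉ R ∧ j ∉ insert s R ∧ insert j (insert s R) = T.1ᶜ) :=
        fun h => hc (hsw (s, j) h)
      simp only
      rw [if_neg hc, if_neg hc', add_zero]
  · rintro ⟨j, s⟩ - hne heq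
    simp only [Prod.mk.injEq] at heq
    apply hne
    simp only
    rw [if_neg]
    intro hc
    exact hc.2.1 (by rw [heq.1]; exact mem_insert_self _ _)
  · intro x _
    exact mem_univ _
  · intro x _
    rfl

theorem rank_kosR (w : Fin (ρ + γ + 1) → K) :
    (∑ s, w s • kosR K ρ γ s).rank ≤ (ρ + γ).choose ρ := by
  classical
  by_cases hw : w = 0
  · subst hw
    simp
  obtain ⟨i₀, hi₀⟩ := Function.ne_iff.1 hw
  rw [Pi.zero_apply] at hi₀
  set Z : Finset (Finset (Fin (ρ + γ + 1))) := powersetCard ρ (univ.erase i₀) with hZ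
  have hcardZ : Z.card = (ρ + γ).choose ρ := by
    rw [hZ, card_powersetCard, card_erase_of_mem (mem_univ _), card_univ, Fintype.card_fin]
    rfl
  set V : Submodule K (SubR (ρ + γ + 1) γ → K) :=
    Submodule.span K ((Z.image (colR w) : Finset _) : Set _) with hV
  have hcol : ∀ S : Finset (Fin (ρ + γ + 1)), S.card = ρ → colR w S ∈ V := by
    intro S hS
    by_cases hi : i₀ ∈ S
    · set R := S.erase i₀ with hR
      have hiR : i₀ ∉ R := notMem_erase _ _
      have hcR : R.card + 1 = ρ := by
        rw [hR, card_erase_add_one hi, hS]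
      have hrel := colR_rel w R
      rw [← add_sum_erase _ _ (mem_univ i₀), if_pos hiR, hR, insert_erase hi, ← hR] at hrel
      have hne : w i₀ * eps K i₀ R ≠ 0 := mul_ne_zero hi₀ (eps_ne_zero _ _)
      rw [← Submodule.smul_mem_iff V hne]
      rw [eq_neg_of_add_eq_zero_left hrel]
      refine Submodule.neg_mem _ (Submodule.sum_mem _ fun j hj => ?_)
      by_cases hjR : j ∉ R
      swap
      · rw [if_neg hjR]
        exact Submodule.zero_mem _
      · rw [if_pos hjR]
        refine Submodule.smul_mem _ _ (Submodule.subset_span ?_)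
        rw [Finset.mem_coe, mem_image]
        refine ⟨insert j R, ?_, rfl⟩
        rw [hZ, mem_powersetCard]
        refine ⟨?_, by rw [card_insert_of_notMem hjR, hcR]⟩
        intro x hx
        rw [mem_insert] at hx
        rw [mem_erase]
        refine ⟨?_, mem_univ _⟩
        rintro rfl
        rcases hx with hx | hx
        · exact ne_of_mem_erase hj hx.symm
        · exact hiR hx
    · refine Submodule.subset_span ?_
      rw [Finset.mem_coe, mem_image]
      refine ⟨S, ?_, rfl⟩
      rw [hZ, mem_powersetCard]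
      refine ⟨fun x hx => ?_, hS⟩
      rw [mem_erase]
      exact ⟨fun h => hi (h ▸ hx), mem_univ _⟩
  have hfin : Module.finrank K V ≤ (ρ + γ).choose ρ := by
    rw [← hcardZ]
    exact (finrank_span_finset_le_card _).trans card_image_le
  rw [Matrix.rank_eq_finrank_span_cols]
  refine le_trans (Submodule.finrank_mono ?_) hfin
  rw [Submodule.span_le]
  rintro _ ⟨S, rfl⟩
  have e : (∑ s, w s • kosR K ρ γ s).col S = colR w S.1 := by
    funext T
    rw [Matrix.col_apply, Matrix.sum_apply, colR]
    refine sum_congr rfl fun s _ => ?_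
    rw [Matrix.smul_apply, smul_eq_mul]
    unfold kosR
    rw [Matrix.of_apply]
    split_ifs
    · ring
    · ring
  rw [e]
  exact hcol S.1 S.2

/-! ### A family for which the flattening is invertible -/

theorem sum_kosR_apply (s : Fin (ρ + γ + 1)) (T : SubR (ρ + γ + 1) γ)
    (y : SubR (ρ + γ + 1) ρ → K) :
    ∑ S, kosR K ρ γ s T S * y S = if h : s ∉ T.1 then
      eps K s ((insert s T.1)ᶜ) * y ⟨(insert s T.1)ᶜ, by
        rw [card_compl, Fintype.card_fin, card_insert_of_notMem h, T.2]
        omega⟩ else 0 := by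
  have hiff : ∀ S : Finset (Fin (ρ + γ + 1)), (s ∉ S ∧ insert s S = T.1ᶜ) →
      s ∉ T.1 ∧ S = (insert s T.1)ᶜ := by
    intro S hS
    have := cond_symm hS
    exact ⟨this.1, by rw [this.2, compl_compl]⟩
  by_cases h : s ∉ T.1
  · rw [dif_pos h]
    rw [Finset.sum_eq_single (⟨(insert s T.1)ᶜ, by
        rw [card_compl, Fintype.card_fin, card_insert_of_notMem h, T.2]
        omega⟩ : SubR (ρ + γ + 1) ρ)]
    · unfold kosR
      rw [Matrix.of_apply, if_pos]
      apply cond_symm
      exact ⟨h, by rw [compl_compl]⟩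
    · intro S _ hS
      unfold kosR
      rw [Matrix.of_apply, if_neg, zero_mul]
      intro hc
      exact hS (Subtype.ext (hiff S.1 hc).2)
    · intro hc
      exact absurd (mem_univ _) hc
  · rw [dif_neg h]
    refine sum_eq_zero fun S _ => ?_
    unfold kosR
    rw [Matrix.of_apply, if_neg, zero_mul]
    intro hc
    exact h (hiff S.1 hc).1

/-- the flattening of the rank one matrices given by the points `a s` of the moment curves has
trivial kernel -/
theorem kosR_injective {a : Fin (ρ + γ + 1) → K} (ha : Function.Injective a)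
    (x : Fin (γ + 1) × SubR (ρ + γ + 1) ρ → K)
    (hx : ∀ (b : Fin (ρ + 1)) (T : SubR (ρ + γ + 1) γ),
      ∑ z : Fin (γ + 1) × SubR (ρ + γ + 1) ρ,
        (∑ s, a s ^ (b : ℕ) * a s ^ (z.1 : ℕ) * kosR K ρ γ s T z.2) * x z = 0) : x = 0 := by
  classical
  -- the contracted vectors
  set y : Fin (ρ + γ + 1) → SubR (ρ + γ + 1) ρ → K :=
    fun s S => ∑ b : Fin (γ + 1), a s ^ (b : ℕ) * x (b, S) with hy
  have h1 : ∀ (b : Fin (ρ + 1)) (T : SubR (ρ + γ + 1) γ),
      ∑ s, a s ^ (b : ℕ) * ∑ S, kosR K ρ γ s T S * y s S = 0 := by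
    intro b T
    rw [← hx b T]
    simp only [Finset.sum_mul]
    rw [Finset.sum_comm]
    refine sum_congr rfl fun s _ => ?_
    rw [Fintype.sum_prod_type, Finset.sum_comm, mul_sum]
    refine sum_congr rfl fun S _ => ?_
    rw [hy]
    simp only [mul_sum]
    refine sum_congr rfl fun b' _ => ?_
    ring
  -- the contracted vectors vanish
  have h2 : ∀ (s : Fin (ρ + γ + 1)) (S : SubR (ρ + γ + 1) ρ), s ∉ S.1 → y s S = 0 := by
    intro s S hs
    have hTc : ((insert s S.1)ᶜ).card = γ := by
      rw [card_compl, Fintype.card_fin, card_insert_of_notMem hs, S.2]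
      omega
    set T : SubR (ρ + γ + 1) γ := ⟨(insert s S.1)ᶜ, hTc⟩ with hT
    have hcc : (T.1ᶜ).card = ρ + 1 := by
      rw [hT, compl_compl, card_insert_of_notMem hs, S.2]
    have hsT : s ∈ T.1ᶜ := by
      rw [hT, compl_compl]
      exact mem_insert_self _ _
    set f := T.1ᶜ.orderEmbOfFin hcc with hf
    have hinj : Function.Injective fun i => a (f i) := ha.comp f.injective
    set v : Fin (ρ + 1) → K := fun i => ∑ S', kosR K ρ γ (f i) T S' * y (f i) S' with hv
    have h3 : v = 0 := by
      refine Matrix.eq_zero_of_forall_pow_sum_mul_pow_eq_zero hinj fun b => ?_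
      have h4 := h1 b T
      have h5 : ∑ s, a s ^ (b : ℕ) * ∑ S, kosR K ρ γ s T S * y s S =
          ∑ s ∈ T.1ᶜ, a s ^ (b : ℕ) * ∑ S, kosR K ρ γ s T S * y s S := by
        symm
        refine sum_subset (subset_univ _) fun s' _ hs' => ?_
        rw [sum_kosR_apply, dif_neg, mul_zero]
        rw [mem_compl, not_not] at hs'
        exact fun h => h hs'
      rw [h5] at h4
      have h6 : T.1ᶜ = univ.image f := by
        rw [← coe_inj, coe_image, coe_univ, Set.image_univ, hf, range_orderEmbOfFin]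
      rw [h6, sum_image (fun i _ j _ h => f.injective h)] at h4
      rw [← h4]
      exact sum_congr rfl fun i _ => by rw [hv]; ring
    obtain ⟨i, hi⟩ : ∃ i, f i = s := by
      have h6 : s ∈ Set.range f := by
        rw [hf, range_orderEmbOfFin]
        exact hsT
      exact h6
    have h7 := congrFun h3 i
    rw [hv] at h7
    simp only [hi, Pi.zero_apply] at h7
    have hsT' : s ∉ T.1 := mem_compl.1 hsT
    rw [sum_kosR_apply, dif_pos hsT'] at h7
    have h8 : (insert s T.1)ᶜ = S.1 := by
      rw [hT]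
      ext z
      simp only [mem_compl, mem_insert, not_or, not_and, not_not]
      constructor
      · rintro ⟨hz, hz'⟩
        exact hz' hz
      · intro hz
        exact ⟨fun h => hs (h ▸ hz), fun _ => hz⟩
    have h9 : y s ⟨(insert s T.1)ᶜ, by
        rw [card_compl, Fintype.card_fin, card_insert_of_notMem hsT', T.2]
        omega⟩ = y s S := congrArg (y s) (Subtype.ext h8)
    rw [h9] at h7
    rcases mul_eq_zero.1 h7 with h | h
    · exact absurd h (eps_ne_zero _ _)
    · exact h
  -- the vector vanishes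
  funext z
  obtain ⟨b, S⟩ := z
  rw [Pi.zero_apply]
  have hcc : (S.1ᶜ).card = γ + 1 := by
    rw [card_compl, Fintype.card_fin, S.2]
    omega
  set f := S.1ᶜ.orderEmbOfFin hcc with hf
  have hinj : Function.Injective fun i => a (f i) := ha.comp f.injective
  have h3 : (fun b' : Fin (γ + 1) => x (b', S)) = 0 := by
    refine Matrix.eq_zero_of_forall_index_sum_pow_mul_eq_zero hinj fun i => ?_
    have := h2 (f i) S (mem_compl.1 (orderEmbOfFin_mem _ _ i))
    rw [hy] at this
    exact this
  exact congrFun h3 b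

/-- the two sides of a block have the same number of elements -/
theorem card_block (ρ γ : ℕ) : Fintype.card (Fin (ρ + 1) × SubR (ρ + γ + 1) γ) =
    Fintype.card (Fin (γ + 1) × SubR (ρ + γ + 1) ρ) := by
  rw [Fintype.card_prod, Fintype.card_prod, card_SubR, card_SubR, Fintype.card_fin,
    Fintype.card_fin]
  have h1 := Nat.add_one_mul_choose_eq (ρ + γ) ρ
  have h2 := Nat.add_one_mul_choose_eq (ρ + γ) γ
  have h3 : (ρ + γ + 1).choose (ρ + 1) = (ρ + γ + 1).choose γ :=
    (Nat.choose_symm_of_eq_add (by ring : ρ + γ + 1 = ρ + 1 + γ))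
  have h4 : (ρ + γ + 1).choose (γ + 1) = (ρ + γ + 1).choose ρ :=
    (Nat.choose_symm_of_eq_add (by ring : ρ + γ + 1 = γ + 1 + ρ))
  have h5 : (ρ + γ).choose ρ = (ρ + γ).choose γ := Nat.choose_symm_add
  rw [h3] at h1
  rw [h4] at h2
  rw [mul_comm, ← h1, h5, h2, mul_comm]

theorem card_block' (ρ γ : ℕ) : Fintype.card (Fin (ρ + 1) × SubR (ρ + γ + 1) γ) =
    (ρ + γ + 1) * (ρ + γ).choose ρ := by
  rw [Fintype.card_prod, card_SubR, Fintype.card_fin]
  have h1 := Nat.add_one_mul_choose_eq (ρ + γ) ρ
  have h3 : (ρ + γ + 1).choose (ρ + 1) = (ρ + γ + 1).choose γ :=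
    (Nat.choose_symm_of_eq_add (by ring : ρ + γ + 1 = ρ + 1 + γ))
  rw [h3] at h1
  rw [mul_comm, ← h1]

end Pool.Agent.K9h26.AH
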