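import Pool.Agent.K9h26.AH.QCore
import Mathlib.FieldTheory.IsAlgClosed.AlgebraicClosure

set_option autoImplicit false
set_option linter.unusedSectionVars false

/-!
# From circuits over `F[X]` to approximate quadratic algorithms
-/

namespace Pool.Agent.K9h26.AH

open Finset Pool.Agent.H88R3.MM Pool.Agent.H522R2 Pool.Agent.H522R2.Circuit

section ring

variable {A V : Type*} [CommRing A]

/-- the coefficient of a variable in the linear part -/
noncomputable def E1 (x : V) (P : MvPolynomial V A) : A :=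
  MvPolynomial.constantCoeff (MvPolynomial.pderiv x P)

/-- the second partial derivative at the origin -/
noncomputable def E2 (x y : V) (P : MvPolynomial V A) : A :=
  MvPolynomial.constantCoeff (MvPolynomial.pderiv x (MvPolynomial.pderiv y P))

theorem E1_C (x : V) (c : A) : E1 x (MvPolynomial.C c) = 0 := by
  unfold E1
  rw [MvPolynomial.pderiv_C, map_zero]

theorem E2_C (x y : V) (c : A) : E2 x y (MvPolynomial.C c) = 0 := by
  unfold E2
  rw [MvPolynomial.pderiv_C, map_zero, map_zero]

theorem E2_X (x y z : V) : E2 x y (MvPolynomial.X z : MvPolynomial V A) = 0 := by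
  classical
  unfold E2
  rw [MvPolynomial.pderiv_X]
  by_cases h : y = z
  · subst h
    rw [Pi.single_eq_same, MvPolynomial.pderiv_one, map_zero]
  · rw [Pi.single_eq_of_ne' h, map_zero, map_zero]

theorem E2_add (x y : V) (P Q : MvPolynomial V A) : E2 x y (P + Q) = E2 x y P + E2 x y Q := by
  unfold E2
  rw [map_add, map_add, map_add]

theorem E2_sum {ι : Type*} (x y : V) (s : Finset ι) (P : ι → MvPolynomial V A) :
    E2 x y (∑ i ∈ s, P i) = ∑ i ∈ s, E2 x y (P i) := by
  unfold E2
  rw [map_sum, map_sum, map_sum]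

theorem E2_mul (x y : V) (P Q : MvPolynomial V A) : E2 x y (P * Q) =
    MvPolynomial.constantCoeff P * E2 x y Q + MvPolynomial.constantCoeff Q * E2 x y P +
      (E1 x P * E1 y Q + E1 y P * E1 x Q) := by
  unfold E2 E1
  rw [MvPolynomial.pderiv_mul, map_add, MvPolynomial.pderiv_mul, MvPolynomial.pderiv_mul]
  simp only [map_add, map_mul]
  ring

theorem E2_C_mul (x y : V) (c : A) (P : MvPolynomial V A) :
    E2 x y (MvPolynomial.C c * P) = c * E2 x y P := by
  rw [E2_mul, E2_C, E1_C, E1_C, MvPolynomial.constantCoeff_C]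
  ring

open Classical in
/-- The second order part at a node is a linear combination of the products of the linear parts
at the inputs of the nonscalar multiplication gates. -/
theorem exists_comb (C : Circuit A V) (k : Fin C.nodes) :
    ∃ c : {g : Fin C.nodes // C.IsNonscalar g} → A, ∀ x y : V,
      E2 x y (C.poly k) = ∑ g, c g *
        (E1 x (C.poly (inp C g.1).1) * E1 y (C.poly (inp C g.1).2) +
          E1 y (C.poly (inp C g.1).1) * E1 x (C.poly (inp C g.1).2)) := by
  obtain ⟨k, hk⟩ := k
  induction k using Nat.strong_induction_on with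
  | _ k ih =>
    cases h : C.gate ⟨k, hk⟩ with
    | var z =>
      refine ⟨0, fun x y => ?_⟩
      rw [poly, h]
      simp [E2_X]
    | const c =>
      refine ⟨0, fun x y => ?_⟩
      rw [poly, h]
      simp [E2_C]
    | add i j =>
      obtain ⟨c1, h1⟩ := ih i i.2 (i.2.trans hk)
      obtain ⟨c2, h2⟩ := ih j j.2 (j.2.trans hk)
      refine ⟨fun g => c1 g + c2 g, fun x y => ?_⟩
      rw [poly, h]
      simp only
      rw [show C.up ⟨k, hk⟩ i = ⟨i, i.2.trans hk⟩ from rfl,
        show C.up ⟨k, hk⟩ j = ⟨j, j.2.trans hk⟩ from rfl, E2_add, h1, h2,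
        ← Finset.sum_add_distrib]
      exact Finset.sum_congr rfl fun g _ => by ring
    | mul i j =>
      obtain ⟨c1, h1⟩ := ih i i.2 (i.2.trans hk)
      obtain ⟨c2, h2⟩ := ih j j.2 (j.2.trans hk)
      have hin : inp C ⟨k, hk⟩ = (C.up ⟨k, hk⟩ i, C.up ⟨k, hk⟩ j) := by
        unfold inp
        rw [h]
      have hp : C.poly ⟨k, hk⟩ = C.poly (C.up ⟨k, hk⟩ i) * C.poly (C.up ⟨k, hk⟩ j) := by
        conv_lhs => rw [poly, h]
      by_cases hns : C.IsNonscalar ⟨k, hk⟩
      · refine ⟨fun g => MvPolynomial.constantCoeff (C.poly (C.up ⟨k, hk⟩ i)) * c2 g +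
          MvPolynomial.constantCoeff (C.poly (C.up ⟨k, hk⟩ j)) * c1 g +
          (if g = ⟨⟨k, hk⟩, hns⟩ then 1 else 0), fun x y => ?_⟩
        rw [hp, E2_mul]
        rw [show E2 x y (C.poly (C.up ⟨k, hk⟩ i)) = _ from h1 x y,
          show E2 x y (C.poly (C.up ⟨k, hk⟩ j)) = _ from h2 x y]
        simp only [add_mul, Finset.sum_add_distrib, ite_mul, one_mul, zero_mul,
          Finset.sum_ite_eq', Finset.mem_univ, if_true, hin, Finset.mul_sum, mul_assoc]
      · refine ⟨fun g => MvPolynomial.constantCoeff (C.poly (C.up ⟨k, hk⟩ i)) * c2 g +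
          MvPolynomial.constantCoeff (C.poly (C.up ⟨k, hk⟩ j)) * c1 g, fun x y => ?_⟩
        rw [hp, E2_mul]
        rw [show E2 x y (C.poly (C.up ⟨k, hk⟩ i)) = _ from h1 x y,
          show E2 x y (C.poly (C.up ⟨k, hk⟩ j)) = _ from h2 x y]
        have hz : E1 x (C.poly (C.up ⟨k, hk⟩ i)) * E1 y (C.poly (C.up ⟨k, hk⟩ j)) +
            E1 y (C.poly (C.up ⟨k, hk⟩ i)) * E1 x (C.poly (C.up ⟨k, hk⟩ j)) = 0 := by
          have h3 : (∃ c : A, C.poly (C.up ⟨k, hk⟩ i) = MvPolynomial.C c) ∨
              ∃ c : A, C.poly (C.up ⟨k, hk⟩ j) = MvPolynomial.C c := by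
            by_contra hcon
            push Not at hcon
            exact hns ⟨i, j, h, hcon.1, hcon.2⟩
          rcases h3 with ⟨c, hc⟩ | ⟨c, hc⟩
          · rw [hc, E1_C, E1_C]
            ring
          · rw [hc, E1_C, E1_C]
            ring
        rw [hz, add_zero]
        simp only [add_mul, Finset.sum_add_distrib, Finset.mul_sum, mul_assoc]

theorem E1_X [DecidableEq V] (x z : V) :
    E1 x (MvPolynomial.X z : MvPolynomial V A) = if x = z then 1 else 0 := by
  unfold E1
  rw [MvPolynomial.pderiv_X, Pi.single_apply]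
  by_cases h : z = x
  · rw [if_pos h, if_pos h.symm, map_one]
  · rw [if_neg h, if_neg (fun h' => h h'.symm), map_zero]

theorem E2_entry {m : ℕ} (i j : Fin m) (x y : Vars m) :
    E2 x y (∑ k : Fin m, MvPolynomial.X (Sum.inl (i, k)) * MvPolynomial.X (Sum.inr (k, j)) :
      MvPolynomial (Vars m) A) = sc A (i, j) x y := by
  classical
  rw [E2_sum]
  have h1 : ∀ k : Fin m, E2 x y (MvPolynomial.X (Sum.inl (i, k)) *
      MvPolynomial.X (Sum.inr (k, j)) : MvPolynomial (Vars m) A) =
      (if x = Sum.inl (i, k) then 1 else 0) * (if y = Sum.inr (k, j) then 1 else 0) +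
      (if y = Sum.inl (i, k) then 1 else 0) * (if x = Sum.inr (k, j) then 1 else 0) := by
    intro k
    rw [E2_mul, E2_X, E2_X, mul_zero, mul_zero, add_zero, zero_add, E1_X, E1_X, E1_X, E1_X]
  simp only [h1]
  have key : ∀ b c : Fin m × Fin m, (∑ k : Fin m, (if (b = (i, k)) then (1 : A) else 0) *
      (if c = (k, j) then 1 else 0)) = if b.2 = c.1 ∧ b.1 = i ∧ c.2 = j then 1 else 0 := by
    rintro ⟨b1, b2⟩ ⟨c1, c2⟩
    rw [Finset.sum_eq_single b2]
    · simp only [Prod.mk.injEq, and_true]
      by_cases h2 : b1 = i <;> by_cases h3 : c1 = b2 <;> by_cases h4 : c2 = j <;>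
        simp [h2, h3, h4]
      all_goals exact fun h => absurd h.symm h3
    · intro k _ hk
      rw [if_neg (fun h => hk (Prod.mk.inj h).2.symm), zero_mul]
    · intro h
      exact absurd (mem_univ _) h
  rcases x with b | c <;> rcases y with b' | c'
  · simp [sc]
  · simp only [Sum.inl.injEq, Sum.inr.injEq, reduceCtorEq, if_false, mul_zero, add_zero]
    rw [key]
    rfl
  · simp only [Sum.inl.injEq, Sum.inr.injEq, reduceCtorEq, if_false, mul_zero, zero_add]
    rw [key]
    rfl
  · simp [sc]

end ring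

open Polynomial

variable {F : Type*} [Field F] {m : ℕ}

/-- The circuit `D` over `F[X]` computes the product of two generic matrices approximately, with
error degree `h`: each entry, multiplied by `X ^ h`, agrees modulo `X ^ (h + 1)` with a polynomial
which is computed by `D`. -/
def Approx (h : ℕ) (D : Circuit F[X] (Vars m)) : Prop :=
  ∀ i j : Fin m, ∃ (k : Fin D.nodes) (R : MvPolynomial (Vars m) F[X]),
    D.poly k = MvPolynomial.C (X ^ h) * MvPolynomial.map C (entry F m i j) +
      MvPolynomial.C (X ^ (h + 1)) * R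

open Classical in
theorem Approx.exists_alg {h : ℕ} {D : Circuit F[X] (Vars m)} (H : Approx h D) :
    ∃ (u v : {g : Fin D.nodes // D.IsNonscalar g} → Vars m → F[X])
      (w : {g : Fin D.nodes // D.IsNonscalar g} → Fin m × Fin m → F[X]), QAlg h u v w := by
  choose out R hR using H
  choose c hc using fun k => exists_comb D k
  refine ⟨fun g x => E1 x (D.poly (inp D g.1).1), fun g x => E1 x (D.poly (inp D g.1).2),
    fun g a => c (out a.1 a.2) g, fun a x z => E2 x z (R a.1 a.2), fun a x z => ?_⟩
  have h1 := hc (out a.1 a.2) x z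
  rw [hR, E2_add, E2_C_mul, E2_C_mul] at h1
  have h2 : MvPolynomial.map C (entry F m a.1 a.2) =
      (∑ k : Fin m, MvPolynomial.X (Sum.inl (a.1, k)) * MvPolynomial.X (Sum.inr (k, a.2)) :
        MvPolynomial (Vars m) F[X]) := by
    unfold entry
    rw [map_sum]
    refine sum_congr rfl fun k _ => ?_
    rw [map_mul, MvPolynomial.map_X, MvPolynomial.map_X]
  rw [h2, E2_entry] at h1
  rw [h1]
  refine sum_congr rfl fun g _ => ?_
  ring

theorem QAlg.map {K : Type*} [Field K] (f : F →+* K) {L : Type*} [Fintype L] {h : ℕ}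
    {u v : L → Vars m → F[X]} {w : L → Fin m × Fin m → F[X]} (H : QAlg h u v w) :
    QAlg h (fun l x => (u l x).map f) (fun l x => (v l x).map f) (fun l a => (w l a).map f) := by
  obtain ⟨R, hR⟩ := H
  refine ⟨fun a x z => (R a x z).map f, fun a x z => ?_⟩
  have h1 := congrArg (Polynomial.map f) (hR a x z)
  rw [Polynomial.map_add, Polynomial.map_mul, Polynomial.map_mul, Polynomial.map_pow,
    Polynomial.map_pow, Polynomial.map_X, Polynomial.map_sum] at h1
  have h2 : (sc F[X] a x z).map f = sc K[X] a x z := by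
    rcases x with b | b <;> rcases z with c | c
    · simp [sc]
    · simp only [sc]
      split_ifs <;> simp
    · simp only [sc]
      split_ifs <;> simp
    · simp [sc]
  rw [h2] at h1
  rw [← h1]
  refine sum_congr rfl fun l _ => ?_
  rw [Polynomial.map_mul, Polynomial.map_add, Polynomial.map_mul, Polynomial.map_mul]

end Pool.Agent.K9h26.AH
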