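import Pool.Agent.K9h26.AH.Ech
import Pool.Agent.K9h26.AH.Flag
import Pool.Agent.W946.KosCore

set_option autoImplicit false
set_option linter.unusedSectionVars false

/-!
# The basic inequalities for approximate algorithms
-/

namespace Pool.Agent.K9h26.AH

open Finset Polynomial Pool.Agent.H88R3.MM Pool.Agent.W946.Kos
open scoped Kronecker

/-- the coefficient of the product of the variables `x` and `z` in the entry `a` of the product -/
def sc (A : Type*) [CommRing A] {m : ℕ} (a : Fin m × Fin m) (x z : Vars m) : A :=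
  match x, z with
  | .inl b, .inr c => if b.2 = c.1 ∧ b.1 = a.1 ∧ c.2 = a.2 then 1 else 0
  | .inr c, .inl b => if b.2 = c.1 ∧ b.1 = a.1 ∧ c.2 = a.2 then 1 else 0
  | .inl _, .inl _ => 0
  | .inr _, .inr _ => 0

variable {F : Type*} [Field F] {L : Type*} [Fintype L] {m : ℕ}

/-- approximate quadratic algorithms: in polarized form, the sum of the products of the linear
forms `u l` and `v l` with the coefficients `w l a` is `X ^ h` times the entry `a` of the product,
up to multiples of `X ^ (h + 1)` -/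
def QAlg (h : ℕ) (u v : L → Vars m → F[X]) (w : L → Fin m × Fin m → F[X]) : Prop :=
  ∃ R : Fin m × Fin m → Vars m → Vars m → F[X], ∀ a x z,
    ∑ l, (u l x * v l z + v l x * u l z) * w l a = X ^ h * sc F[X] a x z + X ^ (h + 1) * R a x z

theorem QAlg.pair {h : ℕ} {u v : L → Vars m → F[X]} {w : L → Fin m × Fin m → F[X]}
    (H : QAlg h u v w) (y : Fin m × Fin m → F[X]) (x z : Vars m) : ∃ E : F[X],
      ∑ l, (u l x * v l z + v l x * u l z) * pr y (w l) =
        X ^ h * (∑ a, y a * sc F[X] a x z) + X ^ (h + 1) * E := by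
  obtain ⟨R, hR⟩ := H
  refine ⟨∑ a : Fin m × Fin m, y a * R a x z, ?_⟩
  have h1 : ∀ l, (u l x * v l z + v l x * u l z) * pr y (w l) =
      ∑ a : Fin m × Fin m, y a * ((u l x * v l z + v l x * u l z) * w l a) := by
    intro l
    unfold pr
    rw [mul_sum]
    exact sum_congr rfl fun x _ => by ring
  rw [sum_congr rfl fun l _ => h1 l, sum_comm]
  have h2 : ∀ a : Fin m × Fin m, ∑ l, y a * ((u l x * v l z + v l x * u l z) * w l a) =
      X ^ h * (y a * sc F[X] a x z) + X ^ (h + 1) * (y a * R a x z) := by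
    intro a
    rw [← mul_sum, hR]
    ring
  rw [sum_congr rfl fun a _ => h2 a, sum_add_distrib, ← mul_sum, ← mul_sum]

theorem sum_sc_lr (y : Fin m × Fin m → F[X]) (i k k' j : Fin m) :
    ∑ a, y a * sc F[X] a (Sum.inl (i, k)) (Sum.inr (k', j)) = if k = k' then y (i, j) else 0 := by
  unfold sc
  simp only
  by_cases hk : k = k'
  · rw [if_pos hk, Finset.sum_eq_single (i, j)]
    · rw [if_pos ⟨hk, rfl, rfl⟩, mul_one]
    · intro a _ ha
      rw [if_neg (fun h' => ha (Prod.ext h'.2.1.symm h'.2.2.symm)), mul_zero]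
    · intro hc
      exact absurd (mem_univ _) hc
  · rw [if_neg hk]
    exact sum_eq_zero fun a _ => by rw [if_neg (fun h' => hk h'.1), mul_zero]

theorem sum_sc_rl (y : Fin m × Fin m → F[X]) (i k k' j : Fin m) :
    ∑ a, y a * sc F[X] a (Sum.inr (k', j)) (Sum.inl (i, k)) = if k = k' then y (i, j) else 0 :=
  sum_sc_lr y i k k' j

theorem sum_sc_ll (y : Fin m × Fin m → F[X]) (b c : Fin m × Fin m) :
    ∑ a, y a * sc F[X] a (Sum.inl b) (Sum.inl c) = 0 :=
  sum_eq_zero fun _ _ => mul_zero _

theorem sum_sc_rr (y : Fin m × Fin m → F[X]) (b c : Fin m × Fin m) :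
    ∑ a, y a * sc F[X] a (Sum.inr b) (Sum.inr c) = 0 :=
  sum_eq_zero fun _ _ => mul_zero _

theorem QAlg.VV_eq_bot {h : ℕ} {u v : L → Vars m → F[X]} {w : L → Fin m × Fin m → F[X]}
    (H : QAlg h u v w) : VV w (h + 1) = ⊥ := by
  rw [eq_bot_iff]
  rintro _ ⟨y, hy, rfl⟩
  rw [Submodule.mem_bot]
  funext x
  obtain ⟨i, k⟩ := x
  rw [ev_apply, Pi.zero_apply]
  obtain ⟨E, hE⟩ := H.pair y (Sum.inl (i, i)) (Sum.inr (i, k))
  rw [sum_sc_lr, if_pos rfl] at hE
  have h1 : X ^ (h + 1) ∣ ∑ l, (u l (Sum.inl (i, i)) * v l (Sum.inr (i, k)) +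
      v l (Sum.inl (i, i)) * u l (Sum.inr (i, k))) * pr y (w l) :=
    dvd_sum fun l _ => (hy l).mul_left _
  rw [hE] at h1
  have h2 : X ^ (h + 1) ∣ X ^ h * y (i, k) := (dvd_add_left (dvd_mul_right _ _)).1 h1
  rw [pow_succ] at h2
  have h3 : X ∣ y (i, k) := (mul_dvd_mul_iff_left (pow_ne_zero h X_ne_zero)).1 h2
  exact X_dvd_iff.1 h3

theorem kos_map {K K' : Type*} [Field K] [Field K'] (f : K →+* K') (p : ℕ) (s : Fin (2 * p + 1))
    (T S : Sub p) : f (kos K p s T S) = kos K' p s T S := by
  unfold kos eps sg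
  rw [Matrix.of_apply, Matrix.of_apply]
  split_ifs
  · rw [map_mul, map_pow, map_pow, map_neg, map_one]
  · exact map_zero f

/-- the basic inequality for one step of the filtration -/
theorem QAlg.core [Infinite F] {h : ℕ} {u v : L → Vars m → F[X]} {w : L → Fin m × Fin m → F[X]}
    (H : QAlg h u v w) (hm : 0 < m) (j p q : ℕ)
    (hq : (q + 1) * (p + 1) * m ≤ Module.finrank F (VV w j)) :
    m ^ 2 + (2 * p + 1) * m * q ≤ Fintype.card L + Module.finrank F (VV w (j + 1)) +
      q * (p + 1) * (2 * p + 1).choose p := by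
  classical
  -- the family
  set V' : Submodule F (Fin m → Fin m → F) :=
    (VV w j).map (LinearEquiv.curry F F (Fin m) (Fin m)).toLinearMap with hV'
  have hfin : Module.finrank F V' = Module.finrank F (VV w j) :=
    LinearEquiv.finrank_map_eq (LinearEquiv.curry F F (Fin m) (Fin m)) (VV w j)
  obtain ⟨Q, er, ec, G, hGV, hdet⟩ := exists_tuple p q V' hm (by rw [hfin]; exact hq)
  have hG : ∀ s, ∃ v₁ ∈ VV w j, ∀ i k, G s i k = v₁ (i, k) := by
    intro s
    obtain ⟨v₁, hv, hvG⟩ := hGV s
    refine ⟨v₁, hv, fun i k => ?_⟩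
    rw [← hvG]
    rfl
  choose v₁ hv hvG using hG
  obtain ⟨κ, hκ1, hκ2, n, a, y, ha, hcard, hkill, hspan⟩ := exists_gen w j h
  choose t0 ht0 using fun s => hspan (v₁ s) (hv s)
  -- the polynomial
  set σ := Fin (2 * p + 1) × (κ ⊕ Fin n) with hσ
  set N := (Fin q × Fin (p + 1)) × Sub p with hN
  have hcardN : Fintype.card N = q * (p + 1) * (2 * p + 1).choose p := by
    change Fintype.card ((Fin q × Fin (p + 1)) × Sub p) = _
    rw [Fintype.card_prod, Fintype.card_prod, Fintype.card_fin, Fintype.card_fin, card_Sub]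
  set A : (κ ⊕ Fin n) → Matrix (Fin q × Fin (p + 1)) (Fin q × Fin (p + 1)) F := fun g => Matrix.of fun x z =>
    ∑ k, ev (y g) (er x, k) * Q k (ec z) with hA
  set MM : Matrix N N (MvPolynomial σ F) := Matrix.of fun x z =>
    ∑ s : Fin (2 * p + 1), ∑ g : (κ ⊕ Fin n), MvPolynomial.X (s, g) *
      MvPolynomial.C (A g x.1 z.1 * kos F p s x.2 z.2) with hMM
  have heval : ∀ t : σ → F, MvPolynomial.eval t MM.det =
      (∑ s, (∑ g, t (s, g) • A g) ⊗ₖ kos F p s).det := by
    intro t
    rw [RingHom.map_det]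
    congr 1
    ext x z
    rw [RingHom.mapMatrix_apply, Matrix.map_apply, hMM, Matrix.of_apply, map_sum,
      Matrix.sum_apply]
    refine sum_congr rfl fun s _ => ?_
    rw [map_sum, Matrix.kroneckerMap_apply, Matrix.sum_apply, sum_mul]
    refine sum_congr rfl fun g _ => ?_
    rw [map_mul, MvPolynomial.eval_X, MvPolynomial.eval_C, Matrix.smul_apply, smul_eq_mul]
    ring
  have hdeg : MM.det.totalDegree ≤ q * (p + 1) * (2 * p + 1).choose p := by
    rw [← hcardN]
    refine totalDegree_det_le MM fun x z => ?_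
    rw [hMM, Matrix.of_apply]
    refine MvPolynomial.totalDegree_finsetSum_le fun s _ =>
      MvPolynomial.totalDegree_finsetSum_le fun g _ => ?_
    refine (MvPolynomial.totalDegree_mul _ _).trans ?_
    rw [MvPolynomial.totalDegree_C, MvPolynomial.totalDegree_X]
  have hP0 : MM.det ≠ 0 := by
    intro h0
    have h1 := heval fun x => t0 x.1 x.2
    rw [h0, map_zero] at h1
    apply hdet
    rw [h1]
    congr 1
    refine sum_congr rfl fun s _ => ?_
    congr 1
    ext x z
    rw [Matrix.of_apply, Matrix.sum_apply, Matrix.vecMul, dotProduct]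
    simp only [Matrix.smul_apply, smul_eq_mul, hA, Matrix.of_apply, mul_sum]
    rw [sum_comm]
    refine sum_congr rfl fun k _ => ?_
    rw [hvG, ht0 s, Finset.sum_apply, sum_mul]
    refine sum_congr rfl fun g _ => ?_
    rw [Pi.smul_apply, smul_eq_mul, mul_assoc]
  obtain ⟨D, t, hD, htD, ht⟩ := exists_small_support hP0
  rw [heval] at ht
  -- the elements
  set ys : Fin (2 * p + 1) → Fin m × Fin m → F[X] := fun s => ∑ g, t (s, g) • y g with hys
  set κ' : Finset κ := univ.filter fun k => ∃ s, ((s, Sum.inl k) : σ) ∈ D with hκ'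
  have hκ'card : κ'.card ≤ q * (p + 1) * (2 * p + 1).choose p := by
    have h1 : κ'.image Sum.inl ⊆ D.image (Prod.snd : σ → (κ ⊕ Fin n)) := by
      intro g hg
      obtain ⟨k, hk, rfl⟩ := mem_image.1 hg
      obtain ⟨s, hs⟩ := (mem_filter.1 hk).2
      exact mem_image.2 ⟨_, hs, rfl⟩
    have h2 := card_le_card h1
    rw [card_image_of_injective _ Sum.inl_injective] at h2
    exact h2.trans (card_image_le.trans (hD.trans hdeg))
  have hkill' : ∀ k, k ∉ κ' → ∀ s, X ^ (h + 1) ∣ pr (ys s) (w (a k)) := by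
    intro k hk s
    rw [hys]
    simp only
    rw [pr_sum]
    refine dvd_sum fun g _ => ?_
    rw [pr_fsmul]
    by_cases hg : g = Sum.inl k
    · have h1 : t (s, g) = 0 := by
        refine htD _ fun hc => hk ?_
        rw [hκ', mem_filter]
        exact ⟨mem_univ _, s, hg ▸ hc⟩
      rw [h1, C_0, zero_mul]
      exact dvd_zero _
    · exact (hkill g k hg).mul_left _
  set S : Finset L := (univ.filter (· ∉ κ')).image a with hS
  have hScard : S.card + κ'.card = Fintype.card κ := by
    rw [hS, card_image_of_injective _ ha, ← card_univ (α := κ)]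
    have h1 := card_filter_add_card_filter_not (s := (univ : Finset κ)) (fun g => g ∉ κ')
    rw [← h1]
    congr 2
    ext g
    simp
  -- the flattening over the polynomials
  set row : L → (L → Vars m → F[X]) → N × (Bool × Fin m) → F[X] := fun l f x =>
    if x.2.1 then ∑ j, f l (Sum.inr (x.2.2, j)) * C (Q j (ec x.1.1))
    else f l (Sum.inl (er x.1.1, x.2.2)) with hrow
  set col : L → (L → Vars m → F[X]) → N × (Bool × Fin m) → F[X] := fun l f z =>
    if z.2.1 then f l (Sum.inl (er z.1.1, z.2.2))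
    else ∑ j, f l (Sum.inr (z.2.2, j)) * C (Q j (ec z.1.1)) with hcol
  set yQ : Fin (2 * p + 1) → Fin q × Fin (p + 1) → Fin q × Fin (p + 1) → F[X] := fun s x z =>
    ∑ j, ys s (er x, j) * C (Q j (ec z)) with hyQ
  -- the value of the sums
  set bs : Fin (2 * p + 1) → N × (Bool × Fin m) → N × (Bool × Fin m) → F[X] := fun s x z =>
    if x.2 = z.2 then (if x.2.1 then yQ s z.1.1 x.1.1 else yQ s x.1.1 z.1.1) else 0 with hbs
  have hpair : ∀ (s : Fin (2 * p + 1)) (x z : N × (Bool × Fin m)), ∃ E : F[X],
      ∑ l, (row l u x * col l v z + row l v x * col l u z) * pr (ys s) (w l) =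
        X ^ h * bs s x z + X ^ (h + 1) * E := by
    rintro s ⟨x, β, μ⟩ ⟨z, β', μ'⟩
    choose E1 hE1 using H.pair (ys s)
    cases β <;> cases β'
    · -- left, right
      refine ⟨∑ j, E1 (Sum.inl (er x.1, μ)) (Sum.inr (μ', j)) * C (Q j (ec z.1)), ?_⟩
      simp only [hrow, hcol, hbs, Bool.false_eq_true, if_false]
      have h1 : ∀ l, (u l (Sum.inl (er x.1, μ)) * ∑ j, v l (Sum.inr (μ', j)) * C (Q j (ec z.1)) +
          v l (Sum.inl (er x.1, μ)) * ∑ j, u l (Sum.inr (μ', j)) * C (Q j (ec z.1))) *
          pr (ys s) (w l) = ∑ j, (u l (Sum.inl (er x.1, μ)) * v l (Sum.inr (μ', j)) +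
            v l (Sum.inl (er x.1, μ)) * u l (Sum.inr (μ', j))) * pr (ys s) (w l) *
              C (Q j (ec z.1)) := by
        intro l
        rw [mul_sum, mul_sum, ← sum_add_distrib, sum_mul]
        exact sum_congr rfl fun j _ => by ring
      rw [sum_congr rfl fun l _ => h1 l, sum_comm]
      simp only [← sum_mul, hE1, sum_sc_lr]
      by_cases hμ : μ = μ'
      · subst hμ
        simp only [if_true, hyQ]
        rw [mul_sum, mul_sum, ← sum_add_distrib]
        exact sum_congr rfl fun j _ => by ring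
      · simp only [hμ, Prod.mk.injEq, and_false, if_false, mul_zero, zero_add]
        rw [mul_sum]
        exact sum_congr rfl fun j _ => by ring
    · -- left, left
      refine ⟨E1 (Sum.inl (er x.1, μ)) (Sum.inl (er z.1, μ')), ?_⟩
      simp only [hrow, hcol, hbs, Bool.false_eq_true, if_false, if_true, Prod.mk.injEq, false_and]
      rw [hE1, sum_sc_ll]
    · -- right, right
      refine ⟨∑ i, ∑ j, E1 (Sum.inr (μ, i)) (Sum.inr (μ', j)) * C (Q i (ec x.1)) *
        C (Q j (ec z.1)), ?_⟩
      simp only [hrow, hcol, hbs, Bool.false_eq_true, if_false, if_true, Prod.mk.injEq, false_and,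
        reduceCtorEq]
      have h1 : ∀ l, ((∑ i, u l (Sum.inr (μ, i)) * C (Q i (ec x.1))) *
          (∑ j, v l (Sum.inr (μ', j)) * C (Q j (ec z.1))) +
          (∑ i, v l (Sum.inr (μ, i)) * C (Q i (ec x.1))) *
          (∑ j, u l (Sum.inr (μ', j)) * C (Q j (ec z.1)))) * pr (ys s) (w l) =
          ∑ i, ∑ j, (u l (Sum.inr (μ, i)) * v l (Sum.inr (μ', j)) +
            v l (Sum.inr (μ, i)) * u l (Sum.inr (μ', j))) * pr (ys s) (w l) *
              (C (Q i (ec x.1)) * C (Q j (ec z.1))) := by
        intro l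
        rw [sum_mul_sum, sum_mul_sum, ← sum_add_distrib, sum_mul]
        refine sum_congr rfl fun i _ => ?_
        rw [← sum_add_distrib, sum_mul]
        exact sum_congr rfl fun j _ => by ring
      rw [sum_congr rfl fun l _ => h1 l, sum_comm, mul_zero, zero_add, mul_sum]
      refine sum_congr rfl fun i _ => ?_
      rw [sum_comm, mul_sum]
      refine sum_congr rfl fun j _ => ?_
      rw [← sum_mul, hE1, sum_sc_rr]
      ring
    · -- right, left
      refine ⟨∑ j, E1 (Sum.inr (μ, j)) (Sum.inl (er z.1, μ')) * C (Q j (ec x.1)), ?_⟩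
      simp only [hrow, hcol, hbs, if_true]
      have h1 : ∀ l, ((∑ j, u l (Sum.inr (μ, j)) * C (Q j (ec x.1))) * v l (Sum.inl (er z.1, μ')) +
          (∑ j, v l (Sum.inr (μ, j)) * C (Q j (ec x.1))) * u l (Sum.inl (er z.1, μ'))) *
          pr (ys s) (w l) = ∑ j, (u l (Sum.inr (μ, j)) * v l (Sum.inl (er z.1, μ')) +
            v l (Sum.inr (μ, j)) * u l (Sum.inl (er z.1, μ'))) * pr (ys s) (w l) *
              C (Q j (ec x.1)) := by
        intro l
        rw [sum_mul, sum_mul, ← sum_add_distrib, sum_mul]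
        exact sum_congr rfl fun j _ => by ring
      rw [sum_congr rfl fun l _ => h1 l, sum_comm]
      simp only [← sum_mul, hE1, sum_sc_rl]
      by_cases hμ : μ = μ'
      · subst hμ
        simp only [if_true, hyQ]
        rw [mul_sum, mul_sum, ← sum_add_distrib]
        exact sum_congr rfl fun j _ => by ring
      · have hμ' : ¬ μ' = μ := fun h => hμ h.symm
        simp only [hμ, hμ', Prod.mk.injEq, and_false, if_false, mul_zero, zero_add]
        rw [mul_sum]
        exact sum_congr rfl fun j _ => by ring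
  choose E1 hE1 using hpair
  set Bm : Matrix (N × (Bool × Fin m)) (N × (Bool × Fin m)) F[X] := Matrix.of fun x z =>
    ∑ s, bs s x z * C (kos F p s x.1.2 z.1.2) with hBm
  have hflat : ∀ x z : N × (Bool × Fin m), ∃ E : F[X], ∑ l ∈ univ \ S,
      (row l u x * col l v z + row l v x * col l u z) *
      (∑ s, pr (ys s) (w l) * C (kos F p s x.1.2 z.1.2)) =
      X ^ h * (Bm x z + X * E) := by
    intro x z
    have h1 : ∀ l ∈ S, X ^ (h + 1) ∣ (row l u x * col l v z + row l v x * col l u z) *
        (∑ s, pr (ys s) (w l) * C (kos F p s x.1.2 z.1.2)) := by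
      intro l hl
      rw [hS, mem_image] at hl
      obtain ⟨k, hk, rfl⟩ := hl
      refine Dvd.dvd.mul_left (dvd_sum fun s _ => ?_) _
      exact (hkill' k (mem_filter.1 hk).2 s).mul_right _
    obtain ⟨E2, hE2⟩ := dvd_sum h1
    have h2 : ∑ l, (row l u x * col l v z + row l v x * col l u z) *
        (∑ s, pr (ys s) (w l) * C (kos F p s x.1.2 z.1.2)) =
        X ^ h * Bm x z + X ^ (h + 1) * ∑ s, E1 s x z * C (kos F p s x.1.2 z.1.2) := by
      have h3 : ∀ l, (row l u x * col l v z + row l v x * col l u z) *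
          (∑ s, pr (ys s) (w l) * C (kos F p s x.1.2 z.1.2)) =
          ∑ s, ((row l u x * col l v z + row l v x * col l u z) * pr (ys s) (w l)) *
            C (kos F p s x.1.2 z.1.2) := by
        intro l
        rw [mul_sum]
        exact sum_congr rfl fun s _ => by ring
      rw [sum_congr rfl fun l _ => h3 l, sum_comm]
      simp only [← sum_mul, hE1]
      rw [hBm, Matrix.of_apply, mul_sum, mul_sum, ← sum_add_distrib]
      exact sum_congr rfl fun s _ => by ring
    have h3 := sum_sdiff (f := fun l => (row l u x * col l v z + row l v x * col l u z) *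
        (∑ s, pr (ys s) (w l) * C (kos F p s x.1.2 z.1.2))) (subset_univ S)
    rw [h2, hE2] at h3
    refine ⟨(∑ s, E1 s x z * C (kos F p s x.1.2 z.1.2)) - E2, ?_⟩
    rw [eq_sub_of_add_eq h3]
    ring
  choose E hE using hflat
  set P : Matrix (N × (Bool × Fin m)) (N × (Bool × Fin m)) F[X] :=
    Matrix.of fun x z => Bm x z + X * E x z with hP
  -- the two blocks
  set R1 : Matrix N N F := ∑ s, (∑ g, t (s, g) • A g) ⊗ₖ kos F p s with hR1
  set R2 : Matrix N N F := ∑ s, (∑ g, t (s, g) • A g).transpose ⊗ₖ kos F p s with hR2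
  have hR1d : R1.det ≠ 0 := ht
  have hR2d : R2.det ≠ 0 := by
    have h1 : R2 = ((-1 : F) ^ p) • R1.transpose := by
      rw [hR2, hR1, Matrix.transpose_sum, Finset.smul_sum]
      refine sum_congr rfl fun s _ => ?_
      ext x y
      have h2 : kos F p s x.2 y.2 = (-1 : F) ^ p * kos F p s y.2 x.2 :=
        congrFun (congrFun (kos_transpose (K := F) s) y.2) x.2
      simp only [Matrix.kroneckerMap_apply, Matrix.smul_apply, Matrix.transpose_apply,
        smul_eq_mul]
      rw [h2]
      ring
    rw [h1, Matrix.det_smul, Matrix.det_transpose]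
    exact mul_ne_zero (pow_ne_zero _ (pow_ne_zero _ (neg_ne_zero.2 one_ne_zero))) hR1d
  have hyQ0 : ∀ s x z, (yQ s x z).eval 0 = (∑ g, t (s, g) • A g) x z := by
    intro s x z
    rw [hyQ, Polynomial.eval_finsetSum, Matrix.sum_apply]
    simp only [Matrix.smul_apply, smul_eq_mul, hA, Matrix.of_apply, mul_sum]
    rw [sum_comm]
    refine sum_congr rfl fun k _ => ?_
    rw [Polynomial.eval_mul, Polynomial.eval_C, ← Polynomial.coeff_zero_eq_eval_zero, hys]
    simp only [Finset.sum_apply, Pi.smul_apply, Polynomial.finsetSum_coeff,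
      Polynomial.coeff_smul, smul_eq_mul, sum_mul]
    refine sum_congr rfl fun g _ => ?_
    rw [ev_apply, mul_assoc]
  -- the determinant
  have hdetP : P.det ≠ 0 := by
    intro h0
    have h1 : (Polynomial.evalRingHom (0 : F)) P.det = 0 := by rw [h0, map_zero]
    rw [RingHom.map_det] at h1
    have h2 : (Polynomial.evalRingHom (0 : F)).mapMatrix P =
        Matrix.blockDiagonal fun k : Bool × Fin m => if k.1 then R2 else R1 := by
      ext x z
      rw [RingHom.mapMatrix_apply, Matrix.map_apply, hP, Matrix.of_apply, map_add, map_mul,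
        Polynomial.coe_evalRingHom, Polynomial.eval_X, zero_mul, add_zero,
        Matrix.blockDiagonal_apply, hBm, Matrix.of_apply, Polynomial.eval_finsetSum]
      by_cases hxz : x.2 = z.2
      · rw [if_pos hxz]
        rcases hβ : x.2.1 with _ | _
        · simp only [Bool.false_eq_true, if_false]
          rw [hR1, Matrix.sum_apply]
          refine sum_congr rfl fun s _ => ?_
          rw [Polynomial.eval_mul, Polynomial.eval_C, hbs]
          simp only [if_pos hxz, hβ, Bool.false_eq_true, if_false]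
          rw [hyQ0, Matrix.kroneckerMap_apply]
        · simp only [if_true]
          rw [hR2, Matrix.sum_apply]
          refine sum_congr rfl fun s _ => ?_
          rw [Polynomial.eval_mul, Polynomial.eval_C, hbs]
          simp only [if_pos hxz, hβ, if_true]
          rw [hyQ0, Matrix.kroneckerMap_apply, Matrix.transpose_apply]
      · rw [if_neg hxz]
        refine sum_eq_zero fun s _ => ?_
        rw [hbs]
        simp only [if_neg hxz]
        rw [zero_mul, Polynomial.eval_zero]
    rw [h2, Matrix.det_blockDiagonal] at h1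
    refine absurd h1 (prod_ne_zero_iff.2 fun k _ => ?_)
    split_ifs
    · exact hR2d
    · exact hR1d
  -- passing to the rational functions
  set φ : F[X] →+* RatFunc F := algebraMap F[X] (RatFunc F) with hφ
  have hφinj : Function.Injective φ := RatFunc.algebraMap_injective F
  have hφkos : ∀ s (T T' : Sub p), φ (C (kos F p s T T')) = kos (RatFunc F) p s T T' := by
    intro s T T'
    exact kos_map (φ.comp C) p s T T'
  set KK : L → Matrix (Sub p) (Sub p) (RatFunc F) := fun l =>
    ∑ s, φ (pr (ys s) (w l)) • kos (RatFunc F) p s with hKK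
  set AL : (L → Vars m → F[X]) → (L → Vars m → F[X]) → L →
      Matrix (N × (Bool × Fin m)) (N × (Bool × Fin m)) (RatFunc F) :=
    fun f g l => Matrix.of fun x z => φ (row l f x) * KK l x.1.2 z.1.2 * φ (col l g z) with hAL
  have hup : (∑ l ∈ univ \ S, (AL u v l + AL v u l)).rank ≤
      (univ \ S).card * (2 * (2 * p).choose p) := by
    refine (rank_sum_le _ _).trans ?_
    refine (sum_le_card_nsmul _ _ (2 * (2 * p).choose p) fun l _ => ?_).trans
      (le_of_eq (smul_eq_mul _ _))
    have h1 : ∀ f g, (AL f g l).rank ≤ (2 * p).choose p := by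
      intro f g
      refine le_trans ?_ (rank_kos fun s => φ (pr (ys s) (w l)))
      exact rank_scaled (KK l) (fun x : N × (Bool × Fin m) => φ (row l f x))
        (fun z : N × (Bool × Fin m) => φ (col l g z)) (fun x => x.1.2) (fun z => z.1.2)
    exact (rank_add_le _ _).trans
      ((Nat.add_le_add (h1 u v) (h1 v u)).trans (le_of_eq (two_mul _).symm))
  have hlow : (∑ l ∈ univ \ S, (AL u v l + AL v u l)).rank =
      Fintype.card (N × (Bool × Fin m)) := by
    have h1 : ∑ l ∈ univ \ S, (AL u v l + AL v u l) = φ.mapMatrix ((X ^ h : F[X]) • P) := by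
      ext x z
      rw [RingHom.mapMatrix_apply, Matrix.map_apply, Matrix.smul_apply, smul_eq_mul, hP,
        Matrix.of_apply, ← hE x z, map_sum, Matrix.sum_apply]
      refine sum_congr rfl fun l _ => ?_
      have h2 : φ (∑ s, pr (ys s) (w l) * C (kos F p s x.1.2 z.1.2)) = KK l x.1.2 z.1.2 := by
        rw [map_sum]
        change _ = (∑ s, φ (pr (ys s) (w l)) • kos (RatFunc F) p s) x.1.2 z.1.2
        rw [Matrix.sum_apply]
        refine sum_congr rfl fun s _ => ?_
        rw [map_mul, hφkos, Matrix.smul_apply, smul_eq_mul]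
      rw [map_mul, h2, map_add, map_mul, map_mul, Matrix.add_apply, hAL]
      simp only [Matrix.of_apply]
      ring
    rw [h1]
    refine Matrix.rank_of_det_ne_zero ?_
    rw [← RingHom.map_det, Matrix.det_smul]
    intro h2
    have h3 := (map_eq_zero_iff φ hφinj).1 h2
    rcases mul_eq_zero.1 h3 with h4 | h4
    · exact pow_ne_zero _ (pow_ne_zero _ X_ne_zero) h4
    · exact hdetP h4
  -- conclusion
  rw [hlow, Fintype.card_prod, hcardN, Fintype.card_prod, Fintype.card_bool,
    Fintype.card_fin] at hup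
  have h1 : (univ \ S).card + S.card = Fintype.card L := by
    rw [← card_univ]
    exact card_sdiff_add_card_eq_card (subset_univ S)
  have h3 := choose_id p
  have hpos : 0 < (2 * p).choose p := Nat.choose_pos (by omega)
  have h4 : (2 * p + 1) * m * q ≤ (univ \ S).card := by
    refine Nat.le_of_mul_le_mul_right (c := 2 * (2 * p).choose p) ?_ (by omega)
    calc (2 * p + 1) * m * q * (2 * (2 * p).choose p)
        = 2 * (m * q) * ((2 * p + 1) * (2 * p).choose p) := by ring
      _ = q * (p + 1) * (2 * p + 1).choose p * (2 * m) := by rw [← h3]; ring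
      _ ≤ _ := hup
  have h5 := card_le w j
  rw [← hcard, Fintype.card_prod, Fintype.card_fin] at h5
  have h6 : m ^ 2 = m * m := sq m
  omega

end Pool.Agent.K9h26.AH
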