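import Pool.Agent.K9h26.AH.Ech
import Pool.Agent.K9h26.AH.KosR

set_option autoImplicit false

/-!
# Families with invertible Koszul flattening, with rectangular blocks
-/

namespace Pool.Agent.K9h26.AH

open Finset Pool.Agent.W946.Kos

/-- long rows for the blocks -/
theorem assign {m : ℕ} (lam : Fin m → ℕ) (q r c : ℕ)
    (h : ∀ k, 1 ≤ k → k ≤ q → (q - k + 1) * r ≤ (univ.filter fun i => k * c ≤ lam i).card) :
    ∃ er : Fin q × Fin r → Fin m, Function.Injective er ∧
      ∀ x, ((x.1 : ℕ) + 1) * c ≤ lam (er x) := by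
  classical
  rcases Nat.eq_zero_or_pos q with rfl | hq
  · exact ⟨fun x => x.1.elim0, fun x => x.1.elim0, fun x => x.1.elim0⟩
  have hqr : q * r ≤ m := by
    have h1 := h 1 le_rfl hq
    rw [Nat.sub_add_cancel hq] at h1
    refine h1.trans ((card_le_univ _).trans ?_)
    rw [Fintype.card_fin]
  set σ := Tuple.sort lam with hσ
  have hmono : Monotone (lam ∘ σ) := Tuple.monotone_sort lam
  set er : Fin q × Fin r → Fin m := fun x =>
    σ (Fin.rev (Fin.castLE hqr (finProdFinEquiv (Fin.rev x.1, x.2)))) with her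
  have herinj : Function.Injective er := by
    intro x y hxy
    have h1 := Fin.rev_injective (σ.injective hxy)
    have h2 := finProdFinEquiv.injective (Fin.castLE_injective hqr h1)
    rw [Prod.mk.injEq] at h2
    exact Prod.ext (Fin.rev_injective h2.1) h2.2
  refine ⟨er, herinj, ?_⟩
  rintro ⟨k, x⟩
  by_contra hcon
  rw [not_le] at hcon
  simp only at hcon
  set pos : Fin m := Fin.rev (Fin.castLE hqr (finProdFinEquiv (Fin.rev k, x))) with hpos
  have hcon' : lam (σ pos) < ((k : ℕ) + 1) * c := hcon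
  have hk := k.2
  have hx := x.2
  have h4 : r * (q - (k + 1)) + r ≤ q * r := by
    have h5 : q - (k + 1) + 1 ≤ q := by omega
    calc r * (q - (k + 1)) + r = (q - (k + 1) + 1) * r := by ring
      _ ≤ q * r := Nat.mul_le_mul_right _ h5
  have hposv : (pos : ℕ) + 1 + ((x : ℕ) + r * (q - (k + 1))) = m := by
    have h1 : (pos : ℕ) = m - ((x : ℕ) + r * (q - (k + 1)) + 1) := by
      rw [hpos, Fin.val_rev, Fin.val_castLE, finProdFinEquiv_apply_val]
      simp only [Fin.val_rev]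
    omega
  have h1 : (univ.filter fun i => ((k : ℕ) + 1) * c ≤ lam i) ⊆ (Ioi pos).image σ := by
    intro i hi
    have h2 := (mem_filter.1 hi).2
    refine mem_image.2 ⟨σ.symm i, ?_, σ.apply_symm_apply i⟩
    rw [mem_Ioi]
    by_contra hle
    have h3 := hmono (not_lt.1 hle)
    simp only [Function.comp_apply, Equiv.apply_symm_apply] at h3
    omega
  have h2 := card_le_card h1
  rw [card_image_of_injective _ σ.injective, Fin.card_Ioi] at h2
  have h3 := h (k + 1) (by omega) (by omega)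
  have h6 : (q - (k + 1) + 1) * r = r * (q - (k + 1)) + r := by ring
  omega

variable {F : Type*} [Field F] {m : ℕ}

open scoped Kronecker in
/-- the matrix of one block is invertible -/
theorem block_det {ρ γ : ℕ} (e0 : (Fin (ρ + 1) × SubR (ρ + γ + 1) γ) ≃
    (Fin (γ + 1) × SubR (ρ + γ + 1) ρ)) {a : Fin (ρ + γ + 1) → F} (ha : Function.Injective a) :
    (Matrix.of fun z z' : Fin (ρ + 1) × SubR (ρ + γ + 1) γ =>
      ∑ s, a s ^ (z.1 : ℕ) * a s ^ ((e0 z').1 : ℕ) * kosR F ρ γ s z.2 (e0 z').2).det ≠ 0 := by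
  classical
  intro hdet
  obtain ⟨x, hx0, hx⟩ := Matrix.exists_mulVec_eq_zero_iff.2 hdet
  apply hx0
  have h1 := kosR_injective ha (fun z => x (e0.symm z)) fun b T => by
    have h2 := congrFun hx (b, T)
    rw [Pi.zero_apply, Matrix.mulVec, dotProduct] at h2
    rw [← h2, ← Equiv.sum_comp e0]
    simp only [Equiv.symm_apply_apply, Matrix.of_apply]
  funext z
  have h3 := congrFun h1 (e0 z)
  simpa using h3

open scoped Kronecker in
/-- **Families in a large space with invertible Koszul flattening, rectangular blocks** -/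
theorem exists_tupleR [Infinite F] (ρ γ q : ℕ) (V : Submodule F (Fin m → Fin m → F))
    (e0 : (Fin (ρ + 1) × SubR (ρ + γ + 1) γ) ≃ (Fin (γ + 1) × SubR (ρ + γ + 1) ρ))
    (lam : Fin m → ℕ) (Q : Matrix (Fin m) (Fin m) F) (hlam : ∀ i, lam i ≤ m)
    (hech : ∀ τ : Fin m → Fin m → F, ∃ A ∈ V,
        ∀ i c : Fin m, (c : ℕ) < lam i → Matrix.vecMul (A i) Q c = τ i c)
    (h : ∀ k, 1 ≤ k → k ≤ q →
      (q - k + 1) * (ρ + 1) ≤ (univ.filter fun i => k * (γ + 1) ≤ lam i).card) :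
    ∃ (er : Fin q × Fin (ρ + 1) → Fin m) (ec : Fin q × Fin (γ + 1) → Fin m)
      (G : Fin (ρ + γ + 1) → Fin m → Fin m → F), (∀ s, G s ∈ V) ∧
      (Matrix.of fun z z' : Fin q × (Fin (ρ + 1) × SubR (ρ + γ + 1) γ) =>
        ∑ s, Matrix.vecMul (G s (er (z.1, z.2.1))) Q (ec (z'.1, (e0 z'.2).1)) *
          kosR F ρ γ s z.2.2 (e0 z'.2).2).det ≠ 0 := by
  classical
  obtain ⟨er, herinj, hlong⟩ := assign lam q (ρ + 1) (γ + 1) h
  obtain ⟨a, ha⟩ : ∃ c : Fin (ρ + γ + 1) → F, Function.Injective c :=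
    ⟨fun i => Infinite.natEmbedding F i, fun i j hij =>
      Fin.ext ((Infinite.natEmbedding F).injective hij)⟩
  have hqc : q * (γ + 1) ≤ m := by
    rcases Nat.eq_zero_or_pos q with rfl | hq
    · rw [zero_mul]
      exact Nat.zero_le _
    · have h1 := hlong (⟨q - 1, by omega⟩, ⟨0, by omega⟩)
      simp only at h1
      rw [show q - 1 + 1 = q by omega] at h1
      exact h1.trans (hlam _)
  set ec : Fin q × Fin (γ + 1) → Fin m := fun x => Fin.castLE hqc (finProdFinEquiv x) with hec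
  -- the targets
  choose G hGV hG using fun s : Fin (ρ + γ + 1) => hech fun i c =>
    ∑ x : Fin q × Fin (ρ + 1), if er x = i ∧ (c : ℕ) / (γ + 1) = x.1 then
      a s ^ (x.2 : ℕ) * a s ^ ((c : ℕ) % (γ + 1)) else 0
  refine ⟨er, ec, G, hGV, ?_⟩
  have hentry : ∀ s (x : Fin q × Fin (ρ + 1)) (y : Fin q × Fin (γ + 1)), y.1 ≤ x.1 →
      Matrix.vecMul (G s (er x)) Q (ec y) =
        if x.1 = y.1 then a s ^ (x.2 : ℕ) * a s ^ (y.2 : ℕ) else 0 := by
    intro s x y hxy
    have hval : ((ec y : Fin m) : ℕ) = (y.2 : ℕ) + (γ + 1) * (y.1 : ℕ) := by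
      rw [hec]
      simp only [Fin.val_castLE, finProdFinEquiv_apply_val]
    have h1 : ((ec y : Fin m) : ℕ) < lam (er x) := by
      refine lt_of_lt_of_le ?_ (hlong x)
      rw [hval]
      have h2 := y.2.2
      have h3 : (γ + 1) * ((y.1 : ℕ) + 1) ≤ ((x.1 : ℕ) + 1) * (γ + 1) := by
        rw [mul_comm]
        refine Nat.mul_le_mul_right _ ?_
        have : (y.1 : ℕ) ≤ x.1 := hxy
        omega
      have h4 : (γ + 1) * ((y.1 : ℕ) + 1) = (γ + 1) * (y.1 : ℕ) + (γ + 1) := by ring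
      omega
    rw [hG s (er x) (ec y) h1]
    have hdiv : ((ec y : Fin m) : ℕ) / (γ + 1) = y.1 := by
      rw [hval, Nat.add_mul_div_left _ _ (Nat.succ_pos γ), Nat.div_eq_of_lt y.2.2, zero_add]
    have hmod : ((ec y : Fin m) : ℕ) % (γ + 1) = y.2 := by
      rw [hval, Nat.add_mul_mod_self_left, Nat.mod_eq_of_lt y.2.2]
    rw [hdiv, hmod, Finset.sum_eq_single x]
    · by_cases h : x.1 = y.1
      · rw [if_pos ⟨rfl, by rw [h]⟩, if_pos h]
      · rw [if_neg (fun h' => h (Fin.ext h'.2.symm)), if_neg h]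
    · intro z _ hz
      rw [if_neg (fun h' => hz (herinj h'.1))]
    · intro h
      exact absurd (mem_univ _) h
  set B0 : Matrix (Fin (ρ + 1) × SubR (ρ + γ + 1) γ) (Fin (ρ + 1) × SubR (ρ + γ + 1) γ) F :=
    Matrix.of fun z z' =>
      ∑ s, a s ^ (z.1 : ℕ) * a s ^ ((e0 z').1 : ℕ) * kosR F ρ γ s z.2 (e0 z').2 with hB0
  have hB0d : B0.det ≠ 0 := block_det e0 ha
  set M : Matrix (Fin q × (Fin (ρ + 1) × SubR (ρ + γ + 1) γ))
      (Fin q × (Fin (ρ + 1) × SubR (ρ + γ + 1) γ)) F := Matrix.of fun z z' =>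
        ∑ s, Matrix.vecMul (G s (er (z.1, z.2.1))) Q (ec (z'.1, (e0 z'.2).1)) *
          kosR F ρ γ s z.2.2 (e0 z'.2).2 with hM
  set M0 : Matrix (Fin q × (Fin (ρ + 1) × SubR (ρ + γ + 1) γ))
      (Fin q × (Fin (ρ + 1) × SubR (ρ + γ + 1) γ)) F :=
        (1 : Matrix (Fin q) (Fin q) F) ⊗ₖ B0 with hM0
  have hMe : ∀ z z', z'.1 ≤ z.1 → M z z' = M0 z z' := by
    intro z z' hz
    rw [hM, hM0, Matrix.of_apply, Matrix.kroneckerMap_apply, hB0, Matrix.of_apply,
      Matrix.one_apply]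
    by_cases h1 : z.1 = z'.1
    · rw [if_pos h1, one_mul]
      refine sum_congr rfl fun s _ => ?_
      rw [hentry s (z.1, z.2.1) (z'.1, (e0 z'.2).1) hz, if_pos h1]
    · rw [if_neg h1, zero_mul]
      refine sum_eq_zero fun s _ => ?_
      rw [hentry s (z.1, z.2.1) (z'.1, (e0 z'.2).1) hz, if_neg h1, zero_mul]
  have hM0z : ∀ z z', z.1 ≠ z'.1 → M0 z z' = 0 := by
    intro z z' hz
    rw [hM0, Matrix.kroneckerMap_apply, Matrix.one_apply, if_neg hz, zero_mul]
  have hbt : M.BlockTriangular Prod.fst := by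
    intro z z' hz
    rw [hMe z z' (le_of_lt hz)]
    exact hM0z z z' (ne_of_gt hz)
  have hbt0 : M0.BlockTriangular Prod.fst := by
    intro z z' hz
    exact hM0z z z' (ne_of_gt hz)
  have hdet0 : M0.det ≠ 0 := by
    rw [hM0, Matrix.det_kronecker, Matrix.det_one, one_pow, one_mul]
    exact pow_ne_zero _ hB0d
  rw [hbt.det_fintype]
  rw [hbt0.det_fintype] at hdet0
  convert hdet0 using 2
  congr 1
  ext z z'
  exact hMe z.1 z'.1 (le_of_eq (z'.2.trans z.2.symm))

end Pool.Agent.K9h26.AH
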